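import Pool.Agent.Work.MP_91555f_an.Final

/-!
# Assembly of the contraction
-/

open MeasureTheory Set Metric Filter Topology
open scoped ENNReal NNReal ComplexConjugate

namespace NullContr

noncomputable section

/-- the directions -/
def dir (m j : ℕ) : ℂ := Complex.exp (((Real.pi * j / m : ℝ) : ℂ) * Complex.I)

lemma norm_dir (m j : ℕ) : ‖dir m j‖ = 1 := Complex.norm_exp_ofReal_mul_I _

lemma conj_dir_mul (m j : ℕ) (w : ℂ) :
    conj (dir m j) * w = ‖w‖ * Complex.exp (((w.arg - Real.pi * j / m : ℝ) : ℂ) * Complex.I) := by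
  conv_lhs => rw [← Complex.norm_mul_exp_arg_mul_I w]
  unfold dir
  rw [← Complex.exp_conj, map_mul, Complex.conj_I, Complex.conj_ofReal, mul_left_comm, ← Complex.exp_add]
  congr 2
  push_cast; ring

lemma X_dir (m j : ℕ) (w : ℂ) : X (dir m j) w = ‖w‖ * Real.cos (w.arg - Real.pi * j / m) := by
  unfold X
  rw [conj_dir_mul, Complex.re_ofReal_mul, Complex.exp_ofReal_mul_I_re]

lemma Y_dir (m j : ℕ) (w : ℂ) : Y (dir m j) w = ‖w‖ * Real.sin (w.arg - Real.pi * j / m) := by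
  unfold Y
  rw [conj_dir_mul, Complex.im_ofReal_mul, Complex.exp_ofReal_mul_I_im]

/-- the narrow cones cover all directions -/
lemma dir_cover {m : ℕ} (hm : 3 ≤ m) (w : ℂ) (hw : w ≠ 0) :
    ∃ j < m, |X (dir m j) w| < 3 / m * |Y (dir m j) w| := by
  have hmR : (3 : ℝ) ≤ m := by exact_mod_cast hm
  have hm0 : (0 : ℝ) < m := by linarith
  set α := w.arg with hα
  set x : ℝ := (α - Real.pi / 2) * m / Real.pi with hx
  set j' : ℤ := round x with hj'
  have hround : |x - j'| ≤ 1 / 2 := abs_sub_round x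
  have hmZ : (0 : ℤ) < m := by exact_mod_cast (by omega : 0 < m)
  set j : ℕ := (j' % m).toNat with hj
  have hjZ : ((j : ℕ) : ℤ) = j' % m := Int.toNat_of_nonneg (Int.emod_nonneg _ hmZ.ne')
  have hjm : j < m := by
    have := Int.emod_lt_of_pos j' hmZ
    rw [← hjZ] at this
    exact_mod_cast this
  refine ⟨j, hjm, ?_⟩
  set k : ℤ := j' / m with hk
  have hdecomp : (j' : ℤ) = m * k + j := by
    rw [hjZ, hk]; exact (Int.mul_ediv_add_emod j' m).symm
  have hdecompR : (j' : ℝ) = m * k + j := by exact_mod_cast hdecomp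
  set β : ℝ := (x - j') * Real.pi / m with hβ
  have hpi := Real.pi_pos
  have harg : α - Real.pi * j / m = (Real.pi / 2 + β) + k * Real.pi := by
    rw [hβ, hx, hdecompR]
    field_simp
    ring
  have hβ1 : |β| ≤ Real.pi / (2 * m) := by
    rw [hβ, abs_div, abs_mul, abs_of_pos hpi, abs_of_pos hm0]
    rw [div_le_div_iff₀ hm0 (by positivity)]
    nlinarith [mul_le_mul_of_nonneg_right hround (mul_pos hpi hm0).le]
  have hpi32 : Real.pi < 3.2 := by have := Real.pi_lt_d2; linarith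
  have hβ2 : |β| < 1.6 / m := by
    refine hβ1.trans_lt ?_
    rw [div_lt_div_iff₀ (by positivity) hm0]
    nlinarith
  have hβ3 : |β| < 0.54 := by
    refine hβ2.trans_le ?_
    rw [div_le_iff₀ hm0]; nlinarith
  have hcosk : |Real.cos (α - Real.pi * j / m)| = |Real.sin β| := by
    rw [harg, Real.cos_add_int_mul_pi, abs_mul, abs_neg_one_zpow, one_mul, Real.cos_add]
    simp
  have hsink : |Real.sin (α - Real.pi * j / m)| = |Real.cos β| := by
    rw [harg, Real.sin_add_int_mul_pi, abs_mul, abs_neg_one_zpow, one_mul, Real.sin_add]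
    simp
  rw [X_dir, Y_dir, abs_mul, abs_mul, hcosk, hsink, abs_norm]
  have hw0 : 0 < ‖w‖ := norm_pos_iff.2 hw
  have h1 : |Real.sin β| ≤ |β| := Real.abs_sin_le_abs
  have h2 : 0.85 ≤ Real.cos β := by
    have := Real.one_sub_sq_div_two_le_cos (x := β)
    have h3 : β ^ 2 ≤ 0.54 ^ 2 := by
      rw [← sq_abs β]
      gcongr
    linarith
  have h3 : 0.85 ≤ |Real.cos β| := h2.trans (le_abs_self _)
  have h4 : |Real.sin β| < 3 / m * |Real.cos β| := by
    calc |Real.sin β| < 1.6 / m := h1.trans_lt hβ2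
      _ ≤ 3 / m * 0.85 := by
          rw [div_mul_eq_mul_div]; gcongr; norm_num
      _ ≤ 3 / m * |Real.cos β| := by gcongr
  calc ‖w‖ * |Real.sin β| < ‖w‖ * (3 / m * |Real.cos β|) := by gcongr
    _ = 3 / m * (‖w‖ * |Real.cos β|) := by ring

def Dset (m i : ℕ) : Set ℂ := dir m '' {j | j < i}

lemma Dset_finite (m i : ℕ) : (Dset m i).Finite := (Set.finite_lt_nat i).image _

lemma Dset_norm (m i : ℕ) : ∀ v ∈ Dset m i, ‖v‖ = 1 := by
  rintro _ ⟨j, -, rfl⟩; exact norm_dir m j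

lemma Dset_succ (m i : ℕ) : Dset m (i + 1) = insert (dir m i) (Dset m i) := by
  unfold Dset
  ext z
  simp only [mem_image, mem_ofPred_eq, mem_insert_iff]
  constructor
  · rintro ⟨j, hj, rfl⟩
    rcases Nat.lt_succ_iff_lt_or_eq.1 hj with h | h
    · exact Or.inr ⟨j, h, rfl⟩
    · left; rw [h]
  · rintro (h | ⟨j, hj, rfl⟩)
    · exact ⟨i, Nat.lt_succ_self i, h.symm⟩
    · exact ⟨j, by omega, rfl⟩

lemma claim {m : ℕ} (hm : 3 ≤ m) {d : ℝ≥0} (hd : (d : ℝ) = 3 / m) : ∀ k ≤ m, ∀ T : Set ℂ, IsCompact T →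
    volume T = 0 → (∀ v ∈ Dset m (m - k), Thin v d T) → ∀ ε : ℝ, 0 < ε →
    ∃ f : ℂ → ℂ, ∃ V : Set ℂ, PA f ∧ (∀ z z', ‖f z - f z'‖ ≤ (Real.sqrt (1 + (d : ℝ) ^ 2)) ^ (k + 1) * ‖z - z'‖) ∧
      (∀ z, ‖f z - z‖ ≤ ε) ∧ IsOpen V ∧ T ⊆ V ∧ Lin (f '' V) := by
  have hmR : (3 : ℝ) ≤ m := by exact_mod_cast hm
  have hdR0 : (0 : ℝ) < d := by rw [hd]; positivity
  have hd0 : 0 < d := by exact_mod_cast hdR0
  have hd1 : d ≤ 1 := by
    have : (d : ℝ) ≤ 1 := by rw [hd, div_le_one (by linarith)]; exact hmR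
    exact_mod_cast this
  intro k
  induction k with
  | zero =>
    intro _ T hT hT0 hthin ε hε
    rw [Nat.sub_zero] at hthin
    have hu : ‖(1 : ℂ)‖ = 1 := norm_one
    obtain ⟨f, V, h1, h2, h3, h4, h5, h6⟩ := stepE hu hd0 hd1 hT (fun g hg =>
      wid_null (Dset_finite m m) (Dset_norm m m) (fun w hw => by
        obtain ⟨j, hj, h⟩ := dir_cover hm w hw
        exact ⟨dir m j, ⟨j, hj, rfl⟩, by rw [hd]; exact h⟩) (fun v hv g hg => (hthin v hv).null hg) hu hg) hε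
    refine ⟨f, V, h2, fun z z' => ?_, h3, h4, h5, h6⟩
    rw [zero_add, pow_one]
    exact h1.lipschitz hu z z'
  | succ k ih =>
    intro hk T hT hT0 hthin ε hε
    set i := m - (k + 1) with hi
    have hi1 : m - k = i + 1 := by omega
    obtain ⟨T', hT', hT'0, hT'thin, hU⟩ := stepB (norm_dir m i) hd0 hd1 (Dset_finite m i) (Dset_norm m i) hT hT0 hthin
      (show 0 < ε / 2 by positivity)
    obtain ⟨f', V', h1, h2, h3, h4, h5, h6⟩ := ih (by omega) T' hT' hT'0 (by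
      rw [hi1, Dset_succ]; exact hT'thin) (ε / 2) (by positivity)
    obtain ⟨f, V, a1, a2, a3, a4, a5, a6⟩ := hU V' h4 h5
    refine ⟨f' ∘ f, V ∪ f ⁻¹' V', h1.comp a2, fun z z' => ?_, fun z => ?_, a4.union (h4.preimage (a1.continuous (norm_dir m i))),
      ?_, ?_⟩
    · have b1 := h2 (f z) (f z')
      have b2 := a1.lipschitz (norm_dir m i) z z'
      have hs : 0 ≤ Real.sqrt (1 + (d : ℝ) ^ 2) := Real.sqrt_nonneg _
      calc ‖(f' ∘ f) z - (f' ∘ f) z'‖ ≤ Real.sqrt (1 + (d : ℝ) ^ 2) ^ (k + 1) * ‖f z - f z'‖ := b1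
        _ ≤ Real.sqrt (1 + (d : ℝ) ^ 2) ^ (k + 1) * (Real.sqrt (1 + (d : ℝ) ^ 2) * ‖z - z'‖) := by gcongr
        _ = Real.sqrt (1 + (d : ℝ) ^ 2) ^ (k + 1 + 1) * ‖z - z'‖ := by rw [pow_succ _ (k + 1)]; ring
    · have b1 := h3 (f z)
      have b2 := a3 z
      have b3 : (f' ∘ f) z - z = (f' (f z) - f z) + (f z - z) := by simp
      rw [b3]
      refine (norm_add_le _ _).trans ?_
      linarith
    · intro z hz
      by_cases hzV : z ∈ V
      · left; exact hzV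
      · right; exact a6 ⟨z, ⟨hz, hzV⟩, rfl⟩
    · rw [image_union]
      refine Lin.union ?_ ?_
      · rw [image_comp]; exact a5.image h1
      · refine h6.mono ?_
        rintro _ ⟨z, hz, rfl⟩
        exact ⟨f z, hz, rfl⟩

lemma exists_m {κ : ℝ} (hκ : 0 < κ) : ∃ m : ℕ, 3 ≤ m ∧
    (Real.sqrt (1 + (3 / (m : ℝ)) ^ 2)) ^ (m + 1) ≤ 1 + κ := by
  have h1 : Tendsto (fun m : ℕ => Real.exp (9 / (m : ℝ))) atTop (𝓝 (Real.exp 0)) := by
    refine (Real.continuous_exp.tendsto 0).comp ?_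
    exact tendsto_const_div_atTop_nhds_zero_nat 9
  rw [Real.exp_zero] at h1
  have h2 : ∀ᶠ m : ℕ in atTop, Real.exp (9 / (m : ℝ)) < 1 + κ := h1.eventually_lt_const (by linarith)
  obtain ⟨m, hm1, hm2⟩ := (h2.and (eventually_ge_atTop 3)).exists
  refine ⟨m, hm2, le_trans ?_ hm1.le⟩
  have hmR : (3 : ℝ) ≤ m := by exact_mod_cast hm2
  have hm0 : (0 : ℝ) < m := by linarith
  have h3 : Real.sqrt (1 + (3 / (m : ℝ)) ^ 2) ≤ Real.exp (9 / (2 * m ^ 2)) := by
    rw [Real.sqrt_le_left (Real.exp_pos _).le, ← Real.exp_nat_mul]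
    have := Real.add_one_le_exp (((2 : ℕ) : ℝ) * (9 / (2 * m ^ 2)))
    refine le_trans (le_of_eq ?_) this
    push_cast
    field_simp
    ring
  calc (Real.sqrt (1 + (3 / (m : ℝ)) ^ 2)) ^ (m + 1) ≤ (Real.exp (9 / (2 * m ^ 2))) ^ (m + 1) := by gcongr
    _ = Real.exp (((m + 1 : ℕ) : ℝ) * (9 / (2 * m ^ 2))) := by rw [← Real.exp_nat_mul]
    _ ≤ Real.exp (9 / m) := by
        apply Real.exp_le_exp.2
        push_cast
        rw [mul_div_assoc', div_le_div_iff₀ (by positivity) hm0]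
        nlinarith

/-- bounded pieces of lines are in segments -/
lemma lin_seg {S : Set ℂ} (hS : Lin S) {R : ℝ} (hR : ∀ z ∈ S, ‖z‖ ≤ R) :
    ∃ P : Set (ℂ × ℂ), P.Finite ∧ S ⊆ ⋃ p ∈ P, segment ℝ p.1 p.2 := by
  obtain ⟨B, hB, h⟩ := hS
  set τ : ℂ × ℂ → ℝ := fun b => (R + ‖b.1‖) / ‖b.2‖ with hτ
  refine ⟨(fun b : ℂ × ℂ => (b.1 - τ b * b.2, b.1 + τ b * b.2)) '' B, hB.image _, fun z hz => ?_⟩
  obtain ⟨b, hb, t, rfl⟩ := h z hz
  refine mem_iUnion₂.2 ⟨_, ⟨b, hb, rfl⟩, ?_⟩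
  rcases eq_or_ne b.2 0 with h0 | h0
  · simp [h0]
  · have hb2 : 0 < ‖b.2‖ := norm_pos_iff.2 h0
    have ht : |t| ≤ τ b := by
      rw [hτ]
      simp only
      rw [le_div_iff₀ hb2]
      have h1 : ‖(t : ℂ) * b.2‖ ≤ ‖b.1 + t * b.2‖ + ‖b.1‖ := by
        have := norm_sub_le (b.1 + t * b.2) b.1
        rwa [add_sub_cancel_left] at this
      rw [norm_mul, Complex.norm_real, Real.norm_eq_abs] at h1
      have := hR _ hz
      linarith
    have hτ0 : 0 ≤ τ b := (abs_nonneg t).trans ht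
    rcases hτ0.eq_or_lt with h1 | h1
    · rw [← h1] at ht
      have : t = 0 := abs_nonpos_iff.1 ht
      simp [this, ← h1]
    · rw [abs_le] at ht
      refine ⟨(τ b - t) / (2 * τ b), (τ b + t) / (2 * τ b), div_nonneg (by linarith) (by positivity),
        div_nonneg (by linarith) (by positivity), by field_simp; ring, ?_⟩
      simp only [Complex.real_smul]
      push_cast
      have h2 : (τ b : ℂ) ≠ 0 := by exact_mod_cast h1.ne'
      field_simp
      ring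

theorem main_complex (C : Set ℂ) (hC : IsCompact C) (hC0 : volume C = 0) {ε : ℝ} (hε : 0 < ε) :
    ∃ f : ℂ → ℂ, (∀ z z', ‖f z - f z'‖ ≤ ‖z - z'‖) ∧ (∀ z ∈ C, ‖f z - z‖ ≤ ε) ∧
      ∃ P : Set (ℂ × ℂ), P.Finite ∧ f '' C ⊆ ⋃ p ∈ P, segment ℝ p.1 p.2 := by
  obtain ⟨R0, hR0⟩ := hC.isBounded.exists_norm_le
  set R := |R0| with hR
  have hRC : ∀ z ∈ C, ‖z‖ ≤ R := fun z hz => (hR0 z hz).trans (le_abs_self _)
  have hR0' : 0 ≤ R := abs_nonneg _
  set κ := ε / (1 + R) with hκ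
  have hκ0 : 0 < κ := by positivity
  obtain ⟨m, hm, hmκ⟩ := exists_m hκ0
  have hmR : (3 : ℝ) ≤ m := by exact_mod_cast hm
  set d : ℝ≥0 := ⟨3 / m, by positivity⟩ with hd
  have hdR : (d : ℝ) = 3 / m := rfl
  obtain ⟨F, V, h1, h2, h3, h4, h5, h6⟩ := claim hm hdR m le_rfl C hC hC0 (by
    rw [Nat.sub_self]
    rintro v ⟨j, hj, -⟩
    exact absurd hj (Nat.not_lt_zero j)) κ hκ0
  rw [hdR] at h2
  set K := (Real.sqrt (1 + (3 / (m : ℝ)) ^ 2)) ^ (m + 1) with hK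
  have hK1 : 1 ≤ K := by
    apply one_le_pow₀
    rw [Real.one_le_sqrt]
    have : 0 ≤ (3 / (m : ℝ)) ^ 2 := by positivity
    linarith
  have hK0 : 0 < K := by linarith
  set f : ℂ → ℂ := fun z => ((K⁻¹ : ℝ) : ℂ) * F z with hf
  have hfn : ∀ w : ℂ, ‖((K⁻¹ : ℝ) : ℂ) * w‖ = K⁻¹ * ‖w‖ := by
    intro w
    rw [norm_mul, Complex.norm_real, Real.norm_eq_abs, abs_of_pos (inv_pos.2 hK0)]
  have hdisp : ∀ z ∈ C, ‖f z - z‖ ≤ ε := by
    intro z hz
    have e1 : f z - z = ((K⁻¹ : ℝ) : ℂ) * (F z - z) - ((1 - K⁻¹ : ℝ) : ℂ) * z := by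
      simp only [hf]; push_cast; ring
    rw [e1]
    refine (norm_sub_le _ _).trans ?_
    rw [hfn]
    have hKinv : K⁻¹ ≤ 1 := inv_le_one_of_one_le₀ hK1
    have e2 : ‖((1 - K⁻¹ : ℝ) : ℂ) * z‖ = (1 - K⁻¹) * ‖z‖ := by
      rw [norm_mul, Complex.norm_real, Real.norm_eq_abs, abs_of_nonneg (by linarith)]
    rw [e2]
    have e3 : 1 - K⁻¹ ≤ κ := by
      have : 1 - K⁻¹ = (K - 1) * K⁻¹ := by field_simp
      rw [this]
      calc (K - 1) * K⁻¹ ≤ κ * 1 := by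
            apply mul_le_mul (by linarith) hKinv (by positivity) hκ0.le
        _ = κ := mul_one _
    calc K⁻¹ * ‖F z - z‖ + (1 - K⁻¹) * ‖z‖ ≤ 1 * κ + κ * R := by
          have := h3 z
          have := hRC z hz
          gcongr
      _ = ε := by rw [hκ]; field_simp
  refine ⟨f, fun z z' => ?_, hdisp, ?_⟩
  · have e1 : f z - f z' = ((K⁻¹ : ℝ) : ℂ) * (F z - F z') := by simp only [hf]; ring
    rw [e1, hfn]
    calc K⁻¹ * ‖F z - F z'‖ ≤ K⁻¹ * (K * ‖z - z'‖) := by gcongr; exact h2 z z'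
      _ = ‖z - z'‖ := by field_simp
  · have hLin : Lin (f '' C) := by
      have e1 : PA (fun z : ℂ => ((K⁻¹ : ℝ) : ℂ) * z) :=
        ⟨{(0, ((K⁻¹ : ℝ) : ℂ), 0)}, Set.finite_singleton _, fun z => ⟨_, rfl, by simp⟩⟩
      have e2 := (h6.image e1)
      refine e2.mono ?_
      rintro _ ⟨z, hz, rfl⟩
      exact ⟨F z, ⟨z, h5 hz, rfl⟩, rfl⟩
    refine lin_seg hLin (R := R + ε) ?_
    rintro _ ⟨z, hz, rfl⟩
    have e1 := hdisp z hz
    have e2 := hRC z hz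
    have e3 : ‖f z‖ ≤ ‖f z - z‖ + ‖z‖ := by
      have := norm_add_le (f z - z) z
      rwa [sub_add_cancel] at this
    linarith

end

end NullContr
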