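import Mathlib

/-!
# Narrow-cone collapses of the plane
-/

open MeasureTheory Set Metric
open scoped ENNReal NNReal ComplexConjugate

namespace NullContr

noncomputable section

/-- first coordinate of `z` in the frame `u` -/
def X (u z : ℂ) : ℝ := (conj u * z).re

/-- second coordinate of `z` in the frame `u` -/
def Y (u z : ℂ) : ℝ := (conj u * z).im

/-- the point with coordinates `(x, y)` in the frame `u` -/
def pt (u : ℂ) (x y : ℝ) : ℂ := u * (x + y * Complex.I)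

lemma conj_mul_self_of_norm {u : ℂ} (hu : ‖u‖ = 1) : conj u * u = 1 := by
  rw [← Complex.normSq_eq_conj_mul_self, Complex.normSq_eq_norm_sq, hu]; simp

lemma mul_conj_self_of_norm {u : ℂ} (hu : ‖u‖ = 1) : u * conj u = 1 := by
  rw [mul_comm]; exact conj_mul_self_of_norm hu

lemma X_pt {u : ℂ} (hu : ‖u‖ = 1) (x y : ℝ) : X u (pt u x y) = x := by
  unfold X pt
  rw [← mul_assoc, conj_mul_self_of_norm hu]; simp

lemma Y_pt {u : ℂ} (hu : ‖u‖ = 1) (x y : ℝ) : Y u (pt u x y) = y := by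
  unfold Y pt
  rw [← mul_assoc, conj_mul_self_of_norm hu]; simp

lemma pt_XY {u : ℂ} (hu : ‖u‖ = 1) (z : ℂ) : pt u (X u z) (Y u z) = z := by
  unfold X Y pt
  rw [Complex.re_add_im, ← mul_assoc, mul_conj_self_of_norm hu, one_mul]

lemma X_sub (u z w : ℂ) : X u (z - w) = X u z - X u w := by
  unfold X; rw [mul_sub, Complex.sub_re]

lemma Y_sub (u z w : ℂ) : Y u (z - w) = Y u z - Y u w := by
  unfold Y; rw [mul_sub, Complex.sub_im]

lemma X_add (u z w : ℂ) : X u (z + w) = X u z + X u w := by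
  unfold X; rw [mul_add, Complex.add_re]

lemma Y_add (u z w : ℂ) : Y u (z + w) = Y u z + Y u w := by
  unfold Y; rw [mul_add, Complex.add_im]

lemma abs_X_le {u : ℂ} (hu : ‖u‖ = 1) (z : ℂ) : |X u z| ≤ ‖z‖ := by
  unfold X
  refine (Complex.abs_re_le_norm _).trans ?_
  rw [norm_mul, Complex.norm_conj, hu, one_mul]

lemma abs_Y_le {u : ℂ} (hu : ‖u‖ = 1) (z : ℂ) : |Y u z| ≤ ‖z‖ := by
  unfold Y
  refine (Complex.abs_im_le_norm _).trans ?_
  rw [norm_mul, Complex.norm_conj, hu, one_mul]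

lemma norm_sq_eq {u : ℂ} (hu : ‖u‖ = 1) (z : ℂ) : ‖z‖ ^ 2 = X u z ^ 2 + Y u z ^ 2 := by
  have h : ‖conj u * z‖ ^ 2 = ‖z‖ ^ 2 := by
    rw [norm_mul, Complex.norm_conj, hu, one_mul]
  rw [← h, ← Complex.normSq_eq_norm_sq, Complex.normSq_apply]
  unfold X Y; ring

lemma norm_pt {u : ℂ} (hu : ‖u‖ = 1) (x y : ℝ) : ‖pt u x y‖ ^ 2 = x ^ 2 + y ^ 2 := by
  rw [norm_sq_eq hu, X_pt hu, Y_pt hu]

lemma pt_sub (u : ℂ) (x y x' y' : ℝ) : pt u x y - pt u x' y' = pt u (x - x') (y - y') := by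
  unfold pt; push_cast; ring

lemma pt_add (u : ℂ) (x y x' y' : ℝ) : pt u x y + pt u x' y' = pt u (x + x') (y + y') := by
  unfold pt; push_cast; ring

lemma continuous_X (u : ℂ) : Continuous (X u) := by
  unfold X; fun_prop

lemma continuous_Y (u : ℂ) : Continuous (Y u) := by
  unfold Y; fun_prop

lemma continuous_pt (u : ℂ) : Continuous (fun p : ℝ × ℝ => pt u p.1 p.2) := by
  unfold pt; fun_prop

/-- maps preserving `Y u` that are nonexpanding for `max |x| (d |y|)` -/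
structure Ty (u : ℂ) (d : ℝ) (f : ℂ → ℂ) : Prop where
  y : ∀ z, Y u (f z) = Y u z
  x : ∀ z z', |X u (f z) - X u (f z')| ≤ max |X u z - X u z'| (d * |Y u z - Y u z'|)

lemma Ty.id (u : ℂ) (d : ℝ) : Ty u d id where
  y := fun _ => rfl
  x := fun _ _ => le_max_left _ _

lemma Ty.comp {u : ℂ} {d : ℝ} {f g : ℂ → ℂ} (hf : Ty u d f) (hg : Ty u d g) :
    Ty u d (f ∘ g) where
  y := fun z => by simp [hf.y, hg.y]
  x := fun z z' => by
    refine (hf.x (g z) (g z')).trans ?_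
    rw [hg.y, hg.y]
    exact max_le (hg.x z z') (le_max_right _ _)

lemma Ty.lipschitz {u : ℂ} (hu : ‖u‖ = 1) {d : ℝ} {f : ℂ → ℂ} (hf : Ty u d f)
    (z z' : ℂ) : ‖f z - f z'‖ ≤ Real.sqrt (1 + d ^ 2) * ‖z - z'‖ := by
  have h1 : ‖f z - f z'‖ ^ 2 ≤ (1 + d ^ 2) * ‖z - z'‖ ^ 2 := by
    rw [norm_sq_eq hu (f z - f z'), norm_sq_eq hu (z - z'), X_sub, Y_sub, X_sub, Y_sub, hf.y, hf.y]
    have h := hf.x z z'
    have h2 : (X u (f z) - X u (f z')) ^ 2 ≤ (X u z - X u z') ^ 2 + d ^ 2 * (Y u z - Y u z') ^ 2 := by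
      rw [← sq_abs (X u (f z) - X u (f z')), ← sq_abs (X u z - X u z'), ← sq_abs (Y u z - Y u z')]
      rcases le_max_iff.1 h with h | h
      · have := mul_self_le_mul_self (abs_nonneg _) h
        nlinarith [sq_nonneg (d * |Y u z - Y u z'|)]
      · have := mul_self_le_mul_self (abs_nonneg _) h
        nlinarith [sq_nonneg (|X u z - X u z'|)]
    nlinarith [sq_nonneg (d * (X u z - X u z'))]
  have h2 : Real.sqrt (1 + d ^ 2) * ‖z - z'‖ = Real.sqrt ((1 + d ^ 2) * ‖z - z'‖ ^ 2) := by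
    rw [Real.sqrt_mul (by positivity), Real.sqrt_sq (norm_nonneg _)]
  rw [h2]
  exact Real.le_sqrt_of_sq_le h1

lemma Ty.continuous {u : ℂ} (hu : ‖u‖ = 1) {d : ℝ} {f : ℂ → ℂ} (hf : Ty u d f) :
    Continuous f := by
  have : LipschitzWith (Real.toNNReal (Real.sqrt (1 + d ^ 2))) f := by
    refine LipschitzWith.of_dist_le_mul fun z z' => ?_
    rw [dist_eq_norm, dist_eq_norm, Real.coe_toNNReal _ (Real.sqrt_nonneg _)]
    exact hf.lipschitz hu z z'
  exact this.continuous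

/-- piecewise affine selections -/
def PA (f : ℂ → ℂ) : Prop :=
  ∃ A : Set (ℂ × ℂ × ℂ), A.Finite ∧ ∀ z, ∃ a ∈ A, f z = a.1 + a.2.1 * z + a.2.2 * conj z

lemma PA.id : PA id :=
  ⟨{(0, 1, 0)}, Set.finite_singleton _, fun z => ⟨_, rfl, by simp⟩⟩

lemma PA.comp {f g : ℂ → ℂ} (hf : PA f) (hg : PA g) : PA (f ∘ g) := by
  obtain ⟨A, hA, hfA⟩ := hf
  obtain ⟨B, hB, hgB⟩ := hg
  refine ⟨Set.image2 (fun a b => (a.1 + a.2.1 * b.1 + a.2.2 * conj b.1,
    a.2.1 * b.2.1 + a.2.2 * conj b.2.2, a.2.1 * b.2.2 + a.2.2 * conj b.2.1)) A B,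
    hA.image2 _ hB, fun z => ?_⟩
  obtain ⟨b, hb, hgz⟩ := hgB z
  obtain ⟨a, ha, hfz⟩ := hfA (g z)
  refine ⟨_, ⟨a, ha, b, hb, rfl⟩, ?_⟩
  rw [Function.comp_apply, hfz, hgz]
  simp only [map_add, map_mul, Complex.conj_conj]
  ring

/-- sets contained in a finite union of lines (or points) -/
def Lin (S : Set ℂ) : Prop :=
  ∃ B : Set (ℂ × ℂ), B.Finite ∧ ∀ z ∈ S, ∃ b ∈ B, ∃ t : ℝ, z = b.1 + t * b.2

lemma Lin.empty : Lin ∅ := ⟨∅, Set.finite_empty, by simp⟩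

lemma Lin.mono {S T : Set ℂ} (hT : Lin T) (h : S ⊆ T) : Lin S := by
  obtain ⟨B, hB, h1⟩ := hT
  exact ⟨B, hB, fun z hz => h1 z (h hz)⟩

lemma Lin.union {S T : Set ℂ} (hS : Lin S) (hT : Lin T) : Lin (S ∪ T) := by
  obtain ⟨B, hB, h1⟩ := hS
  obtain ⟨C, hC, h2⟩ := hT
  refine ⟨B ∪ C, hB.union hC, ?_⟩
  rintro z (hz | hz)
  · obtain ⟨b, hb, h⟩ := h1 z hz; exact ⟨b, Or.inl hb, h⟩
  · obtain ⟨b, hb, h⟩ := h2 z hz; exact ⟨b, Or.inr hb, h⟩

lemma Lin.image {S : Set ℂ} (hS : Lin S) {f : ℂ → ℂ} (hf : PA f) : Lin (f '' S) := by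
  obtain ⟨B, hB, h1⟩ := hS
  obtain ⟨A, hA, h2⟩ := hf
  refine ⟨Set.image2 (fun a b => (a.1 + a.2.1 * b.1 + a.2.2 * conj b.1,
    a.2.1 * b.2 + a.2.2 * conj b.2)) A B, hA.image2 _ hB, ?_⟩
  rintro _ ⟨z, hz, rfl⟩
  obtain ⟨b, hb, t, rfl⟩ := h1 z hz
  obtain ⟨a, ha, hfz⟩ := h2 (b.1 + t * b.2)
  refine ⟨_, ⟨a, ha, b, hb, rfl⟩, t, ?_⟩
  rw [hfz]
  simp only [map_add, map_mul, Complex.conj_ofReal]
  ring

/-- piecewise affine selections on the line -/
def PA1 (g : ℝ → ℝ) : Prop :=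
  ∃ A : Set (ℝ × ℝ), A.Finite ∧ ∀ t, ∃ a ∈ A, g t = a.1 + a.2 * t

/-- interpolation of compatible data by a piecewise affine `d`-Lipschitz function -/
lemma interp (d : ℝ≥0) (J : Finset (ℝ × ℝ))
    (hJ : ∀ p ∈ J, ∀ q ∈ J, |p.2 - q.2| ≤ d * |p.1 - q.1|) :
    ∃ G : ℝ → ℝ, LipschitzWith d G ∧ PA1 G ∧ ∀ p ∈ J, G p.1 = p.2 := by
  classical
  rcases J.eq_empty_or_nonempty with rfl | hne
  · refine ⟨fun _ => 0, LipschitzWith.const' 0, ⟨{(0, 0)}, Set.finite_singleton _, fun t => ⟨_, rfl, by simp⟩⟩, by simp⟩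
  set G : ℝ → ℝ := fun t => J.inf' hne (fun p => p.2 + d * |t - p.1|) with hG
  have hle : ∀ t, ∀ p ∈ J, G t ≤ p.2 + d * |t - p.1| := fun t p hp =>
    Finset.inf'_le (f := fun p : ℝ × ℝ => p.2 + d * |t - p.1|) hp
  have hex : ∀ t, ∃ p ∈ J, G t = p.2 + d * |t - p.1| := fun t =>
    Finset.exists_mem_eq_inf' hne (fun p : ℝ × ℝ => p.2 + d * |t - p.1|)
  refine ⟨G, ?_, ?_, ?_⟩
  · refine LipschitzWith.of_le_add_mul d fun t t' => ?_
    obtain ⟨p, hp, h⟩ := hex t'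
    refine (hle t p hp).trans ?_
    rw [h, Real.dist_eq]
    have : |t - p.1| ≤ |t' - p.1| + |t - t'| := by
      have := abs_sub_le t t' p.1
      linarith
    have h2 := mul_le_mul_of_nonneg_left this d.coe_nonneg
    linarith
  · refine ⟨(fun p : ℝ × ℝ => (p.2 - d * p.1, (d : ℝ))) '' J ∪ (fun p : ℝ × ℝ => (p.2 + d * p.1, -(d : ℝ))) '' J,
      (J.finite_toSet.image _).union (J.finite_toSet.image _), fun t => ?_⟩
    obtain ⟨p, hp, h⟩ := hex t
    rcases le_total 0 (t - p.1) with h0 | h0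
    · refine ⟨_, Or.inl ⟨p, hp, rfl⟩, ?_⟩
      rw [h, abs_of_nonneg h0]; simp only; ring
    · refine ⟨_, Or.inr ⟨p, hp, rfl⟩, ?_⟩
      rw [h, abs_of_nonpos h0]; simp only; ring
  · intro p hp
    apply le_antisymm
    · have := hle p.1 p hp
      simpa using this
    · refine Finset.le_inf' _ _ fun q hq => ?_
      have h1 := hJ p hp q hq
      have h2 := le_abs_self (p.2 - q.2)
      linarith

/-- a single collapse -/
def col (u : ℂ) (g : ℝ → ℝ) (w : ℝ) (z : ℂ) : ℂ :=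
  pt u (max (min (X u z) (g (Y u z))) (X u z - w)) (Y u z)

lemma abs_min_sub_min (a b a' b' : ℝ) : |min a b - min a' b'| ≤ max |a - a'| |b - b'| := by
  exact abs_min_sub_min_le_max a b a' b'

lemma abs_max_sub_max (a b a' b' : ℝ) : |max a b - max a' b'| ≤ max |a - a'| |b - b'| := by
  exact abs_max_sub_max_le_max a b a' b'

lemma col_Ty {u : ℂ} (hu : ‖u‖ = 1) {d : ℝ≥0} {g : ℝ → ℝ} (hg : LipschitzWith d g) (w : ℝ) :
    Ty u d (col u g w) where
  y := fun z => by unfold col; rw [Y_pt hu]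
  x := fun z z' => by
    unfold col
    rw [X_pt hu, X_pt hu]
    refine (abs_max_sub_max _ _ _ _).trans ?_
    refine max_le ((abs_min_sub_min _ _ _ _).trans ?_) ?_
    · refine max_le_max le_rfl ?_
      have := hg.dist_le_mul (Y u z) (Y u z')
      rwa [Real.dist_eq, Real.dist_eq] at this
    · rw [sub_sub_sub_cancel_right]; exact le_max_left _ _

lemma col_of_le {u : ℂ} (hu : ‖u‖ = 1) {g : ℝ → ℝ} {w : ℝ} (hw : 0 ≤ w) {z : ℂ}
    (h : X u z ≤ g (Y u z)) : col u g w z = z := by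
  unfold col
  rw [min_eq_left h, max_eq_left (by linarith), pt_XY hu]

lemma col_of_ge {u : ℂ} (hu : ‖u‖ = 1) {g : ℝ → ℝ} {w : ℝ} (hw : 0 ≤ w) {z : ℂ}
    (h : g (Y u z) + w ≤ X u z) : col u g w z = z + pt u (-w) 0 := by
  unfold col
  rw [min_eq_right (by linarith), max_eq_right (by linarith)]
  conv_rhs => rw [← pt_XY hu z, pt_add]
  ring_nf

lemma col_mid {u : ℂ} {g : ℝ → ℝ} {w : ℝ} {z : ℂ}
    (h : g (Y u z) ≤ X u z) (h' : X u z ≤ g (Y u z) + w) :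
    col u g w z = pt u (g (Y u z)) (Y u z) := by
  unfold col
  rw [min_eq_right h, max_eq_left (by linarith)]

lemma norm_col_sub_le {u : ℂ} (hu : ‖u‖ = 1) {g : ℝ → ℝ} {w : ℝ} (hw : 0 ≤ w) (z : ℂ) :
    ‖col u g w z - z‖ ≤ w := by
  have h1 : ‖col u g w z - z‖ ^ 2 ≤ w ^ 2 := by
    rw [norm_sq_eq hu, X_sub, Y_sub]
    unfold col
    rw [X_pt hu, Y_pt hu, sub_self]
    have h2 : |max (min (X u z) (g (Y u z))) (X u z - w) - X u z| ≤ w := by
      rw [abs_le]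
      constructor
      · have := le_max_right (min (X u z) (g (Y u z))) (X u z - w)
        linarith
      · have : max (min (X u z) (g (Y u z))) (X u z - w) ≤ X u z :=
          max_le (min_le_left _ _) (by linarith)
        linarith
    have := mul_self_le_mul_self (abs_nonneg _) h2
    rw [← sq_abs]
    nlinarith
  exact le_of_sq_le_sq h1 hw

lemma col_PA {u : ℂ} (hu : ‖u‖ = 1) {g : ℝ → ℝ} (hg : PA1 g) {w : ℝ} (hw : 0 ≤ w) :
    PA (col u g w) := by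
  obtain ⟨A, hA, h1⟩ := hg
  refine ⟨{(0, 1, 0), (pt u (-w) 0, 1, 0)} ∪ (fun a : ℝ × ℝ =>
    (u * a.1, u * (a.2 + Complex.I) / (2 * Complex.I) * conj u,
      - (u * (a.2 + Complex.I) / (2 * Complex.I) * u))) '' A, ?_, fun z => ?_⟩
  · exact (Set.toFinite _).union (hA.image _)
  · rcases le_total (X u z) (g (Y u z)) with h | h
    · exact ⟨(0, 1, 0), Or.inl (by simp), by simp [col_of_le hu hw h]⟩
    · rcases le_total (X u z) (g (Y u z) + w) with h' | h'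
      · obtain ⟨a, ha, h2⟩ := h1 (Y u z)
        refine ⟨_, Or.inr ⟨a, ha, rfl⟩, ?_⟩
        rw [col_mid h h', h2]
        have hY : ((Y u z : ℝ) : ℂ) = (conj u * z - u * conj z) / (2 * Complex.I) := by
          have := Complex.im_eq_sub_conj (conj u * z)
          unfold Y
          rw [this]
          simp
        unfold pt
        push_cast
        rw [hY]
        have hI : (Complex.I) ≠ 0 := Complex.I_ne_zero
        field_simp
        ring
      · exact ⟨(pt u (-w) 0, 1, 0), Or.inl (by simp), by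
          rw [col_of_ge hu hw h']; simp; ring⟩

/-- image of the strip is in finitely many lines -/
lemma col_Lin {u : ℂ} {g : ℝ → ℝ} (hg : PA1 g) {w : ℝ} :
    Lin (col u g w '' {z | g (Y u z) < X u z ∧ X u z < g (Y u z) + w}) := by
  obtain ⟨A, hA, h1⟩ := hg
  refine ⟨(fun a : ℝ × ℝ => (u * a.1, u * (a.2 + Complex.I))) '' A, hA.image _, ?_⟩
  rintro _ ⟨z, ⟨hz1, hz2⟩, rfl⟩
  obtain ⟨a, ha, h2⟩ := h1 (Y u z)
  refine ⟨_, ⟨a, ha, rfl⟩, Y u z, ?_⟩
  rw [col_mid hz1.le hz2.le, h2]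
  unfold pt
  push_cast
  ring

lemma isOpen_strip {u : ℂ} {g : ℝ → ℝ} (hg : Continuous g) {w : ℝ} :
    IsOpen {z | g (Y u z) < X u z ∧ X u z < g (Y u z) + w} := by
  have hX := continuous_X u
  have hY := continuous_Y u
  exact (isOpen_lt (hg.comp hY) hX).inter (isOpen_lt hX ((hg.comp hY).add continuous_const))

/-- outside the strip the collapse moves points by one of two translations -/
lemma col_image_subset {u : ℂ} (hu : ‖u‖ = 1) {g : ℝ → ℝ} {w : ℝ} (hw : 0 ≤ w) (T : Set ℂ) :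
    col u g w '' (T \ {z | g (Y u z) < X u z ∧ X u z < g (Y u z) + w}) ⊆
      T ∪ (fun z => z + pt u (-w) 0) '' T := by
  rintro _ ⟨z, ⟨hz, hz'⟩, rfl⟩
  simp only [mem_ofPred_eq, not_and, not_lt] at hz'
  rcases le_or_gt (X u z) (g (Y u z)) with h | h
  · left; rw [col_of_le hu hw h]; exact hz
  · right; exact ⟨z, hz, (col_of_ge hu hw (hz' h)).symm⟩

/-- boxes for `max |x| (d |y|)` -/
def Box (u : ℂ) (d : ℝ) (p : ℂ) (s : ℝ) : Set ℂ :=
  {z | |X u z - X u p| ≤ s ∧ d * |Y u z - Y u p| ≤ s}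

lemma Ty.box {u : ℂ} {d : ℝ} {f : ℂ → ℂ} (hf : Ty u d f) {p z : ℂ} {s : ℝ}
    (hz : z ∈ Box u d p s) : f z ∈ Box u d (f p) s := by
  refine ⟨(hf.x z p).trans (max_le hz.1 hz.2), ?_⟩
  rw [hf.y, hf.y]; exact hz.2

lemma closedBall_subset_box {u : ℂ} (hu : ‖u‖ = 1) {d : ℝ} (hd : d ≤ 1) {p : ℂ} {s : ℝ} :
    closedBall p s ⊆ Box u d p s := by
  intro z hz
  rw [mem_closedBall, dist_eq_norm] at hz
  refine ⟨?_, ?_⟩
  · rw [← X_sub]; exact (abs_X_le hu _).trans hz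
  · rw [← Y_sub]
    calc d * |Y u (z - p)| ≤ 1 * |Y u (z - p)| := by gcongr
      _ = |Y u (z - p)| := one_mul _
      _ ≤ s := (abs_Y_le hu _).trans hz

end

end NullContr
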