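import Pool.Agent.Work.MP_91555f_an.Limit

/-!
# Density argument and compactness argument for wide cones
-/

open MeasureTheory Set Metric Filter Topology
open scoped ENNReal NNReal ComplexConjugate

namespace NullContr

noncomputable section

/-- pieces of the parameter set used in the density argument -/
def piece (v : ℂ) (d : ℝ≥0) (T : Set ℂ) (γ : ℝ → ℂ) (n : ℕ) (q : ℝ) : Set ℝ :=
  {t | γ t ∈ T ∧ |t - q| < 1 / (2 * ((n : ℝ) + 1)) ∧ ∀ t', |t' - t| < 1 / ((n : ℝ) + 1) →
    |X v (γ t' - γ t)| ≤ d * |Y v (γ t' - γ t)| ∧ |t' - t| ≤ ((n : ℝ) + 1) * |Y v (γ t' - γ t)|}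

lemma piece_null {v : ℂ} (hv : ‖v‖ = 1) {d : ℝ≥0} {T : Set ℂ} {γ : ℝ → ℂ}
    (hT : ∀ g : ℝ → ℝ, LipschitzWith d g → volume (hit v g T) = 0) (n : ℕ) (q : ℝ) :
    volume (piece v d T γ n q) = 0 := by
  set A := piece v d T γ n q with hA
  set φ : ℝ → ℝ := fun t => Y v (γ t) with hφ
  set S := φ '' A with hS
  set inv : ℝ → ℝ := Function.invFunOn φ A with hinv
  have hinv1 : ∀ y ∈ S, inv y ∈ A := fun y hy => Function.invFunOn_mem hy
  have hinv2 : ∀ y ∈ S, φ (inv y) = y := fun y hy => Function.invFunOn_eq hy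
  have hclose : ∀ t ∈ A, ∀ t' ∈ A, |t' - t| < 1 / ((n : ℝ) + 1) := by
    intro t ht t' ht'
    have h1 := ht.2.1
    have h2 := ht'.2.1
    have h3 : |t' - t| ≤ |t' - q| + |q - t| := abs_sub_le _ _ _
    rw [abs_sub_comm q t] at h3
    have h4 : 1 / (2 * ((n : ℝ) + 1)) + 1 / (2 * ((n : ℝ) + 1)) = 1 / ((n : ℝ) + 1) := by
      field_simp; norm_num
    linarith
  have hL : LipschitzOnWith d (fun y => X v (γ (inv y))) S := by
    refine LipschitzOnWith.of_dist_le_mul fun y1 h1 y2 h2 => ?_
    have := ((hinv1 y2 h2).2.2 (inv y1) (hclose _ (hinv1 y2 h2) _ (hinv1 y1 h1))).1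
    rw [X_sub, Y_sub] at this
    have e1 := hinv2 y1 h1
    have e2 := hinv2 y2 h2
    simp only [hφ] at e1 e2
    rw [e1, e2] at this
    rw [Real.dist_eq, Real.dist_eq]; exact this
  obtain ⟨g, hg, hgS⟩ := hL.extend_real
  have hSn : volume S = 0 := by
    refine measure_mono_null ?_ (hT g hg)
    intro y hy
    have e1 := hinv2 y hy
    simp only [hφ] at e1
    simp only [hit, mem_ofPred_eq]
    rw [← hgS hy]
    have e3 : pt v (X v (γ (inv y))) y = γ (inv y) := by
      conv_lhs => enter [3]; rw [← e1]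
      exact pt_XY hv _
    simp only
    rw [e3]
    exact (hinv1 y hy).1
  have hinvL : LipschitzOnWith ((n : ℝ≥0) + 1) inv S := by
    refine LipschitzOnWith.of_dist_le_mul fun y1 h1 y2 h2 => ?_
    have := ((hinv1 y2 h2).2.2 (inv y1) (hclose _ (hinv1 y2 h2) _ (hinv1 y1 h1))).2
    rw [Y_sub] at this
    have e1 := hinv2 y1 h1
    have e2 := hinv2 y2 h2
    simp only [hφ] at e1 e2
    rw [e1, e2] at this
    rw [Real.dist_eq, Real.dist_eq]
    push_cast
    exact this
  have hsub : A ⊆ inv '' S := by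
    intro t ht
    have h1 : φ t ∈ S := ⟨t, ht, rfl⟩
    refine ⟨φ t, h1, ?_⟩
    have h2 := hinv2 _ h1
    have h3 := (ht.2.2 (inv (φ t)) (hclose _ ht _ (hinv1 _ h1))).2
    rw [Y_sub] at h3
    simp only [hφ] at h2 h3
    rw [h2, sub_self, abs_zero, mul_zero] at h3
    have := abs_nonpos_iff.1 h3
    simp only [hφ]
    linarith
  have h1 := hinvL.hausdorffMeasure_image_le (d := 1) zero_le_one
  rw [hausdorffMeasure_real, hSn, mul_zero] at h1
  exact measure_mono_null hsub (le_antisymm h1 zero_le)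

lemma density {d : ℝ≥0} {D : Set ℂ} (hD : D.Finite) (hD1 : ∀ v ∈ D, ‖v‖ = 1)
    (hcov : ∀ w : ℂ, w ≠ 0 → ∃ v ∈ D, |X v w| < d * |Y v w|) {T : Set ℂ}
    (hT : ∀ v ∈ D, ∀ g : ℝ → ℝ, LipschitzWith d g → volume (hit v g T) = 0)
    {γ : ℝ → ℂ} {K : ℝ≥0} (hγ : LipschitzWith K γ) (hγ' : ∀ t w, HasDerivAt γ w t → w ≠ 0) :
    volume {t | γ t ∈ T} = 0 := by
  have hsub : {t | γ t ∈ T} ⊆ {t | ¬ DifferentiableAt ℝ γ t} ∪
      ⋃ v ∈ D, ⋃ n : ℕ, ⋃ q : ℚ, piece v d T γ n q := by
    intro t ht
    by_cases hdiff : DifferentiableAt ℝ γ t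
    · right
      have hder := hdiff.hasDerivAt
      set w := deriv γ t with hw
      obtain ⟨v, hv, hvw⟩ := hcov w (hγ' t w hder)
      have hv1 := hD1 v hv
      set a := |X v w| with ha
      set b := |Y v w| with hb
      have ha0 : 0 ≤ a := abs_nonneg _
      have hb0 : 0 < b := by
        rcases (abs_nonneg (Y v w)).lt_or_eq with h | h
        · exact h
        · rw [hb, ← h, mul_zero] at hvw; linarith
      have hd0 : (0 : ℝ) ≤ d := d.coe_nonneg
      set c := min ((d * b - a) / (1 + d)) (b / 2) with hc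
      have hc0 : 0 < c := lt_min (div_pos (by linarith) (by positivity)) (by positivity)
      have hc1 : a + c ≤ d * (b - c) := by
        have : c ≤ (d * b - a) / (1 + d) := min_le_left _ _
        rw [le_div_iff₀ (by positivity)] at this
        nlinarith
      have hc2 : c ≤ b / 2 := min_le_right _ _
      have hlo := (hasDerivAt_iff_isLittleO.1 hder).def hc0
      rw [Metric.eventually_nhds_iff] at hlo
      obtain ⟨δ, hδ, hδ'⟩ := hlo
      obtain ⟨n, hn⟩ := exists_nat_one_div_lt (lt_min hδ (show (0 : ℝ) < b / 2 by positivity))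
      have hn1 : 1 / ((n : ℝ) + 1) < δ := hn.trans_le (min_le_left _ _)
      have hn2 : 1 / ((n : ℝ) + 1) < b / 2 := hn.trans_le (min_le_right _ _)
      obtain ⟨q, hq1, hq2⟩ := exists_rat_btwn (show t - 1 / (2 * ((n : ℝ) + 1)) < t by
        have : (0 : ℝ) < 1 / (2 * ((n : ℝ) + 1)) := by positivity
        linarith)
      refine mem_iUnion₂.2 ⟨v, hv, mem_iUnion.2 ⟨n, mem_iUnion.2 ⟨q, ht, ?_, ?_⟩⟩⟩
      · rw [abs_lt]; constructor <;> linarith
      · intro t' ht'
        have h1 := hδ' (show dist t' t < δ by rw [Real.dist_eq]; linarith)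
        rw [Real.norm_eq_abs] at h1
        set e := γ t' - γ t - (t' - t) • w with he
        have h2 : γ t' - γ t = e + (t' - t) • w := by rw [he]; ring
        have hX : X v ((t' - t) • w) = (t' - t) * X v w := by
          unfold X
          rw [mul_smul_comm, Complex.smul_re, smul_eq_mul]
        have hY : Y v ((t' - t) • w) = (t' - t) * Y v w := by
          unfold Y
          rw [mul_smul_comm, Complex.smul_im, smul_eq_mul]
        have h3 : |X v (γ t' - γ t)| ≤ (a + c) * |t' - t| := by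
          rw [h2, X_add, hX]
          refine (abs_add_le _ _).trans ?_
          have := (abs_X_le hv1 e).trans h1
          rw [abs_mul, ← ha]
          linarith
        have h4 : (b - c) * |t' - t| ≤ |Y v (γ t' - γ t)| := by
          rw [h2, Y_add, hY]
          have h5 := (abs_Y_le hv1 e).trans h1
          have h6 : |(t' - t) * Y v w| = |t' - t| * b := by rw [abs_mul, ← hb]
          have h7 := abs_sub_abs_le_abs_add ((t' - t) * Y v w) (Y v e)
          rw [add_comm (Y v e)]
          rw [h6] at h7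
          linarith
        constructor
        · calc |X v (γ t' - γ t)| ≤ (a + c) * |t' - t| := h3
            _ ≤ (d * (b - c)) * |t' - t| := by gcongr
            _ = d * ((b - c) * |t' - t|) := by ring
            _ ≤ d * |Y v (γ t' - γ t)| := by gcongr
        · have h5 : 1 ≤ ((n : ℝ) + 1) * (b - c) := by
            have : 1 / ((n : ℝ) + 1) < b - c := by linarith
            rw [div_lt_iff₀ (by positivity)] at this
            linarith
          calc |t' - t| = 1 * |t' - t| := (one_mul _).symm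
            _ ≤ (((n : ℝ) + 1) * (b - c)) * |t' - t| := by gcongr
            _ = ((n : ℝ) + 1) * ((b - c) * |t' - t|) := by ring
            _ ≤ ((n : ℝ) + 1) * |Y v (γ t' - γ t)| := by gcongr
    · left; exact hdiff
  refine measure_mono_null hsub (measure_union_null ?_ ?_)
  · exact ae_iff.1 hγ.ae_differentiableAt
  · rw [measure_biUnion_null_iff hD.countable]
    intro v hv
    rw [measure_iUnion_null_iff]
    intro n
    rw [measure_iUnion_null_iff]
    intro q
    exact piece_null (hD1 v hv) (hT v hv) n q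

/-- parameters for which the curve `y = g x` of the frame `u` is in `T` -/
def wid (u : ℂ) (g : ℝ → ℝ) (T : Set ℂ) : Set ℝ := {t | pt u t (g t) ∈ T}

lemma wid_null {d : ℝ≥0} {D : Set ℂ} (hD : D.Finite) (hD1 : ∀ v ∈ D, ‖v‖ = 1)
    (hcov : ∀ w : ℂ, w ≠ 0 → ∃ v ∈ D, |X v w| < d * |Y v w|) {T : Set ℂ}
    (hT : ∀ v ∈ D, ∀ g : ℝ → ℝ, LipschitzWith d g → volume (hit v g T) = 0)
    {u : ℂ} (hu : ‖u‖ = 1) {L : ℝ≥0} {g : ℝ → ℝ} (hg : LipschitzWith L g) :
    volume (wid u g T) = 0 := by
  have hL : LipschitzWith (1 + L) (fun t => pt u t (g t)) := by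
    refine LipschitzWith.of_dist_le_mul fun t t' => ?_
    rw [dist_eq_norm, pt_sub, Real.dist_eq]
    have h1 : ‖pt u (t - t') (g t - g t')‖ ≤ |t - t'| + |g t - g t'| := by
      unfold pt
      rw [norm_mul, hu, one_mul]
      refine (norm_add_le _ _).trans ?_
      rw [norm_mul, Complex.norm_I, mul_one]
      simp only [Complex.norm_real, Real.norm_eq_abs]
      exact le_rfl
    have h2 := hg.dist_le_mul t t'
    rw [Real.dist_eq, Real.dist_eq] at h2
    push_cast
    linarith
  refine density hD hD1 hcov hT hL ?_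
  intro t w hw
  have h1 : HasDerivAt (fun t => X u (pt u t (g t))) (X u w) t := by
    have h2 : HasDerivAt (fun t => conj u * pt u t (g t)) (conj u * w) t := hw.const_mul _
    exact (Complex.reCLM.hasFDerivAt.comp_hasDerivAt t h2)
  have h2 : (fun t => X u (pt u t (g t))) = fun t => t := by
    funext t; exact X_pt hu _ _
  rw [h2] at h1
  have h3 := h1.unique (hasDerivAt_id' t)
  intro h0
  rw [h0] at h3
  simp [X] at h3

end

end NullContr
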