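import Pool.Agent.Work.MP_91555f_an.Density

/-!
# Compactness and the last collapse
-/

open MeasureTheory Set Metric Filter Topology
open scoped ENNReal NNReal ComplexConjugate

namespace NullContr

noncomputable section

lemma continuous_widcurve (u : ℂ) {g : ℝ → ℝ} (hg : Continuous g) :
    Continuous (fun t => pt u t (g t)) := by
  unfold pt; fun_prop

/-- Arzela-Ascoli step -/
lemma compactness {u : ℂ} (hu : ‖u‖ = 1) {L : ℝ≥0} {T : Set ℂ} (hT : IsCompact T)
    (h0 : ∀ g : ℝ → ℝ, LipschitzWith L g → volume (wid u g T) = 0) {η : ℝ} (hη : 0 < η) :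
    ∃ ρ > 0, ∀ g : ℝ → ℝ, LipschitzWith L g → volume (wid u g (cthickening ρ T)) ≤ ENNReal.ofReal η := by
  by_contra hcon
  push Not at hcon
  choose g hgL hgv using fun n : ℕ => hcon (1 / ((n : ℝ) + 1)) (by positivity)
  obtain ⟨R0, hR0⟩ := hT.isBounded.exists_norm_le
  set R := |R0| + 1 with hR
  have hthick : ∀ n : ℕ, ∀ z ∈ cthickening (1 / ((n : ℝ) + 1)) T, ‖z‖ ≤ R := by
    intro n z hz
    have hz' : z ∈ cthickening 1 T := cthickening_mono (by
      rw [div_le_one (by positivity)]; have : (0 : ℝ) ≤ n := by positivity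
      linarith) T hz
    rw [hT.cthickening_eq_biUnion_closedBall zero_le_one] at hz'
    obtain ⟨w, hw, hzw⟩ := mem_iUnion₂.1 hz'
    rw [mem_closedBall, dist_eq_norm] at hzw
    have h1 : ‖z‖ ≤ ‖z - w‖ + ‖w‖ := by
      have := norm_add_le (z - w) w
      rwa [sub_add_cancel] at this
    have h2 := (hR0 w hw).trans (le_abs_self R0)
    linarith
  have hrange : ∀ n : ℕ, wid u (g n) (cthickening (1 / ((n : ℝ) + 1)) T) ⊆ Icc (-R) R := by
    intro n t ht
    have h1 := hthick n _ ht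
    have h2 := (abs_X_le hu (pt u t (g n t))).trans h1
    rw [X_pt hu] at h2
    exact abs_le.1 h2
  -- bounds at all points
  have hbd : ∀ n : ℕ, ∀ t : ℝ, |g n t| ≤ R + L * (|t| + R) := by
    intro n t
    have hne : (wid u (g n) (cthickening (1 / ((n : ℝ) + 1)) T)).Nonempty := by
      by_contra hemp
      rw [not_nonempty_iff_eq_empty] at hemp
      have := hgv n
      rw [hemp, measure_empty] at this
      exact absurd this (not_lt.2 zero_le)
    obtain ⟨t0, ht0⟩ := hne
    have h1 := hthick n _ ht0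
    have h2 := (abs_X_le hu (pt u t0 (g n t0))).trans h1
    have h3 := (abs_Y_le hu (pt u t0 (g n t0))).trans h1
    rw [X_pt hu] at h2
    rw [Y_pt hu] at h3
    have h4 := (hgL n).dist_le_mul t t0
    rw [Real.dist_eq, Real.dist_eq] at h4
    have h5 : |t - t0| ≤ |t| + |t0| := abs_sub _ _
    have h6 : |g n t| ≤ |g n t - g n t0| + |g n t0| := by
      have := abs_add_le (g n t - g n t0) (g n t0)
      rwa [sub_add_cancel] at this
    have h7 : (L : ℝ) * |t - t0| ≤ L * (|t| + R) := by gcongr; linarith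
    linarith
  -- subsequence converging on the rationals
  have hcomp : IsCompact (Set.pi univ (fun q : ℚ => Icc (-(R + L * (|(q : ℝ)| + R))) (R + L * (|(q : ℝ)| + R)))) :=
    isCompact_univ_pi (fun q => isCompact_Icc)
  obtain ⟨G, -, φ, hφ, hlim⟩ := hcomp.tendsto_subseq (x := fun n (q : ℚ) => g n q)
    (fun n q _ => abs_le.1 (hbd n q))
  have hlimq : ∀ q : ℚ, Tendsto (fun k => g (φ k) q) atTop (𝓝 (G q)) := fun q =>
    (tendsto_pi_nhds.1 hlim q)
  -- extension
  set S : Set ℝ := range ((↑) : ℚ → ℝ) with hS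
  have hGL : LipschitzOnWith L (fun x => G (Function.invFun ((↑) : ℚ → ℝ) x)) S := by
    refine LipschitzOnWith.of_dist_le_mul ?_
    rintro _ ⟨q, rfl⟩ _ ⟨q', rfl⟩
    rw [Function.leftInverse_invFun Rat.cast_injective q, Function.leftInverse_invFun Rat.cast_injective q']
    have h1 : Tendsto (fun k => dist (g (φ k) q) (g (φ k) q')) atTop (𝓝 (dist (G q) (G q'))) :=
      (hlimq q).dist (hlimq q')
    exact le_of_tendsto' h1 (fun k => (hgL (φ k)).dist_le_mul _ _)
  obtain ⟨G', hG', hGG⟩ := hGL.extend_real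
  have hG'q : ∀ q : ℚ, G' q = G q := by
    intro q
    have := hGG (show (q : ℝ) ∈ S from ⟨q, rfl⟩)
    simp only at this
    rw [Function.leftInverse_invFun Rat.cast_injective q] at this
    exact this.symm
  have hconv : ∀ t : ℝ, Tendsto (fun k => g (φ k) t) atTop (𝓝 (G' t)) := by
    intro t
    rw [Metric.tendsto_atTop]
    intro e he
    have hL0 : (0 : ℝ) < L + 1 := by positivity
    obtain ⟨q, hq1, hq2⟩ := exists_rat_btwn (show t < t + e / (4 * (L + 1)) by
      have : 0 < e / (4 * (L + 1)) := by positivity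
      linarith)
    obtain ⟨N, hN⟩ := (Metric.tendsto_atTop.1 (hlimq q)) (e / 4) (by positivity)
    refine ⟨N, fun k hk => ?_⟩
    have h1 := hN k hk
    have h2 := (hgL (φ k)).dist_le_mul t q
    have h3 := hG'.dist_le_mul q t
    rw [hG'q q] at h3
    rw [Real.dist_eq] at h1 h2 h3 ⊢
    rw [Real.dist_eq] at h2 h3
    have h4 : |t - q| ≤ e / (4 * (L + 1)) := by rw [abs_le]; constructor <;> linarith
    have h5 : (L : ℝ) * |t - q| ≤ e / 4 := by
      calc (L : ℝ) * |t - q| ≤ (L + 1) * (e / (4 * (L + 1))) := by gcongr; linarith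
        _ = e / 4 := by field_simp
    rw [abs_sub_comm (q : ℝ) t] at h3
    have h6 : |g (φ k) t - G' t| ≤ |g (φ k) t - g (φ k) q| + |g (φ k) q - G' t| := abs_sub_le _ _ _
    have h7 : |g (φ k) q - G' t| ≤ |g (φ k) q - G q| + |G q - G' t| := abs_sub_le _ _ _
    linarith
  -- the sets
  set A : ℕ → Set ℝ := fun k => wid u (g (φ k)) (cthickening (1 / (((φ k : ℕ) : ℝ) + 1)) T) with hA
  have hAm : ∀ k, MeasurableSet (A k) := fun k =>
    (isClosed_cthickening.preimage (continuous_widcurve u (hgL _).continuous)).measurableSet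
  set B : ℕ → Set ℝ := fun m => ⋃ k ≥ m, A k with hB
  have hBm : ∀ m, MeasurableSet (B m) := fun m => MeasurableSet.biUnion (Set.to_countable _) (fun k _ => hAm k)
  have hBanti : Antitone B := by
    intro m m' hmm t ht
    obtain ⟨k, hk, h⟩ := mem_iUnion₂.1 ht
    exact mem_iUnion₂.2 ⟨k, le_trans hmm hk, h⟩
  have hBfin : volume (B 0) ≠ ⊤ := by
    have : B 0 ⊆ Icc (-R) R := iUnion₂_subset fun k _ => hrange (φ k)
    refine ne_top_of_le_ne_top ?_ (measure_mono this)
    rw [Real.volume_Icc]; exact ENNReal.ofReal_ne_top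
  have hlimB := tendsto_measure_iInter_atTop (μ := volume) (fun m => (hBm m).nullMeasurableSet) hBanti ⟨0, hBfin⟩
  have hge : ENNReal.ofReal η ≤ volume (⋂ m, B m) := by
    refine ge_of_tendsto' hlimB (fun m => ?_)
    have : A m ⊆ B m := fun t ht => mem_iUnion₂.2 ⟨m, le_rfl, ht⟩
    exact (hgv (φ m)).le.trans (measure_mono this)
  have hsub : (⋂ m, B m) ⊆ wid u G' T := by
    intro t ht
    have hTne : T.Nonempty := by
      by_contra hemp
      rw [not_nonempty_iff_eq_empty] at hemp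
      obtain ⟨k, -, hk⟩ := mem_iUnion₂.1 (mem_iInter.1 ht 0)
      simp only [hA, wid, hemp, cthickening_empty] at hk
      exact hk
    have h1 : Tendsto (fun k => infDist (pt u t (g (φ k) t)) T - 1 / (((φ k : ℕ) : ℝ) + 1)) atTop
        (𝓝 (infDist (pt u t (G' t)) T - 0)) := by
      refine Tendsto.sub ?_ ?_
      · have h2 : Continuous (fun y : ℝ => infDist (pt u t y) T) := by
          refine (continuous_infDist_pt T).comp ?_
          unfold pt; fun_prop
        exact (h2.tendsto (G' t)).comp (hconv t)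
      · exact tendsto_one_div_add_atTop_nhds_zero_nat.comp hφ.tendsto_atTop
    have h2 : infDist (pt u t (G' t)) T - 0 ≤ 0 := by
      refine le_of_tendsto_of_frequently h1 ?_
      rw [frequently_atTop]
      intro m
      obtain ⟨k, hk, hk'⟩ := mem_iUnion₂.1 (mem_iInter.1 ht m)
      refine ⟨k, hk, ?_⟩
      have h3 : pt u t (g (φ k) t) ∈ cthickening (1 / (((φ k : ℕ) : ℝ) + 1)) T := hk'
      rw [hT.cthickening_eq_biUnion_closedBall (by positivity)] at h3
      obtain ⟨w, hw, hzw⟩ := mem_iUnion₂.1 h3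
      have := infDist_le_dist_of_mem (x := pt u t (g (φ k) t)) hw
      rw [mem_closedBall] at hzw
      linarith
    have h3 : infDist (pt u t (G' t)) T = 0 := le_antisymm (by linarith) infDist_nonneg
    exact (hT.isClosed.mem_iff_infDist_zero hTne).2 h3
  have := (hge.trans (measure_mono hsub)).trans_eq (h0 G' hG')
  rw [nonpos_iff_eq_zero, ENNReal.ofReal_eq_zero] at this
  linarith

/-- a form of the theorem of Mirsky -/
lemma mirsky {α : Type*} (lt : α → α → Prop)
    (htr : ∀ a b c, lt a b → lt b c → lt a c) : ∀ k : ℕ, ∀ P : Finset α,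
    (∀ l : List α, l.Pairwise lt → (∀ p ∈ l, p ∈ P) → l.length ≤ k) →
    ∃ Fs : List (Finset α), Fs.length ≤ k ∧ (∀ p ∈ P, ∃ F ∈ Fs, p ∈ F) ∧
      ∀ F ∈ Fs, ∀ p ∈ F, ∀ q ∈ F, ¬ lt p q := by
  classical
  intro k
  induction k with
  | zero =>
    intro P hP
    refine ⟨[], le_rfl, fun p hp => ?_, by simp⟩
    have := hP [p] (List.pairwise_singleton _ _) (by simpa using hp)
    simp at this
  | succ k ih =>
    intro P hP
    set M := P.filter (fun p => ∀ q ∈ P, ¬ lt q p) with hM
    obtain ⟨Fs, h1, h2, h3⟩ := ih (P \ M) (by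
      intro l hl hlP
      cases l with
      | nil => simp
      | cons a l =>
        have ha := hlP a (by simp)
        rw [Finset.mem_sdiff, hM, Finset.mem_filter] at ha
        obtain ⟨haP, hna⟩ := ha
        push Not at hna
        obtain ⟨q, hq, hqa⟩ := hna haP
        have := hP (q :: a :: l) (by
          rw [List.pairwise_cons]
          refine ⟨?_, hl⟩
          intro b hb
          rcases List.mem_cons.1 hb with rfl | hb
          · exact hqa
          · exact htr _ _ _ hqa ((List.pairwise_cons.1 hl).1 b hb)) (by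
          intro p hp
          rcases List.mem_cons.1 hp with rfl | hp
          · exact hq
          · exact (Finset.mem_sdiff.1 (hlP p hp)).1)
        simp at this ⊢
        omega)
    refine ⟨M :: Fs, by simpa using h1, ?_, ?_⟩
    · intro p hp
      by_cases hpM : p ∈ M
      · exact ⟨M, by simp, hpM⟩
      · obtain ⟨F, hF, hpF⟩ := h2 p (Finset.mem_sdiff.2 ⟨hp, hpM⟩)
        exact ⟨F, by simp [hF], hpF⟩
    · intro F hF p hp q hq
      rcases List.mem_cons.1 hF with rfl | hF
      · exact (Finset.mem_filter.1 hq).2 p (Finset.mem_filter.1 hp).1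
      · exact h3 F hF p hp q hq

/-- successive collapses of strips round narrow chains -/
lemma stack {u : ℂ} (hu : ‖u‖ = 1) {d : ℝ≥0} {s : ℝ} (hs : 0 < s) :
    ∀ n : ℕ, ∀ Fs : List (Finset ℂ), Fs.length = n →
    (∀ F ∈ Fs, ∀ p ∈ F, ∀ q ∈ F, |X u p - X u q| ≤ d * |Y u p - Y u q|) →
    ∀ T : Set ℂ, IsCompact T → (∀ z ∈ T, ∃ F ∈ Fs, ∃ p ∈ F, z ∈ Box u d p s) →
    ∃ f : ℂ → ℂ, ∃ V : Set ℂ, Ty u d f ∧ PA f ∧ (∀ z, ‖f z - z‖ ≤ 6 * s * n) ∧
      IsOpen V ∧ T ⊆ V ∧ Lin (f '' V) := by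
  classical
  intro n
  induction n with
  | zero =>
    intro Fs hn _ T _ hcov
    refine ⟨id, ∅, Ty.id u d, PA.id, fun z => by simp, isOpen_empty, ?_, by simpa using Lin.empty⟩
    intro z hz
    obtain ⟨F, hF, -⟩ := hcov z hz
    rw [List.length_eq_zero_iff.1 hn] at hF
    simp at hF
  | succ n ih =>
    intro Fs hn hFs T hT hcov
    obtain ⟨F, Fs, rfl⟩ := List.exists_cons_of_length_eq_add_one hn
    obtain ⟨G, hG, hGPA, hGi⟩ := interp d (F.image (fun p => (Y u p, X u p))) (by
      intro p hp q hq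
      obtain ⟨a, ha, rfl⟩ := Finset.mem_image.1 hp
      obtain ⟨b, hb, rfl⟩ := Finset.mem_image.1 hq
      exact hFs F (by simp) a ha b hb)
    have hGp : ∀ p ∈ F, G (Y u p) = X u p := fun p hp => hGi _ (Finset.mem_image.2 ⟨p, hp, rfl⟩)
    set g0 : ℝ → ℝ := fun t => G t - 3 * s with hg0
    have hg0L : LipschitzWith d g0 := by
      have := hG.sub (LipschitzWith.const (3 * s))
      simpa using this
    have hg0PA : PA1 g0 := by
      obtain ⟨A, hA, h1⟩ := hGPA
      refine ⟨(fun a : ℝ × ℝ => (a.1 - 3 * s, a.2)) '' A, hA.image _, fun t => ?_⟩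
      obtain ⟨a, ha, h2⟩ := h1 t
      refine ⟨_, ⟨a, ha, rfl⟩, ?_⟩
      simp only [hg0, h2]; ring
    set c := col u g0 (6 * s) with hc
    have hw : 0 ≤ 6 * s := by positivity
    set V1 : Set ℂ := {z | g0 (Y u z) < X u z ∧ X u z < g0 (Y u z) + 6 * s} with hV1
    have hV1o : IsOpen V1 := isOpen_strip hg0L.continuous
    have hcTy : Ty u d c := col_Ty hu hg0L _
    have hcPA : PA c := col_PA hu hg0PA hw
    have hcc : Continuous c := hcTy.continuous hu
    set T1 : Set ℂ := c '' (T \ V1) with hT1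
    have hT1c : IsCompact T1 := (hT.diff hV1o).image hcc
    obtain ⟨f1, V', hf1Ty, hf1PA, hf1d, hV'o, hTV', hLin1⟩ :=
      ih (Fs.map (fun F => F.image c)) (by simpa using hn) (by
        intro F' hF' p hp q hq
        obtain ⟨F'', hF'', rfl⟩ := List.mem_map.1 hF'
        obtain ⟨a, ha, rfl⟩ := Finset.mem_image.1 hp
        obtain ⟨b, hb, rfl⟩ := Finset.mem_image.1 hq
        rw [hcTy.y, hcTy.y]
        exact (hcTy.x a b).trans (max_le (hFs F'' (by simp [hF'']) a ha b hb) le_rfl)) T1 hT1c (by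
        rintro _ ⟨z, ⟨hz, hzV⟩, rfl⟩
        obtain ⟨F', hF', p, hp, hzp⟩ := hcov z hz
        rcases List.mem_cons.1 hF' with rfl | hF'
        · exfalso
          apply hzV
          have h1 := hzp.1
          have h2 := hG.dist_le_mul (Y u p) (Y u z)
          rw [Real.dist_eq, Real.dist_eq, hGp p hp, abs_sub_comm (Y u p)] at h2
          have h3 := h2.trans hzp.2
          rw [abs_le] at h1 h3
          simp only [hV1, hg0, mem_ofPred_eq]
          constructor <;> linarith
        · exact ⟨F'.image c, List.mem_map.2 ⟨F', hF', rfl⟩, c p, Finset.mem_image.2 ⟨p, hp, rfl⟩, hcTy.box hzp⟩)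
    refine ⟨f1 ∘ c, V1 ∪ c ⁻¹' V', hf1Ty.comp hcTy, hf1PA.comp hcPA, fun z => ?_,
      hV1o.union (hV'o.preimage hcc), ?_, ?_⟩
    · have h1 := hf1d (c z)
      have h2 := norm_col_sub_le hu (g := g0) hw z
      have h3 : ‖(f1 ∘ c) z - z‖ ≤ ‖f1 (c z) - c z‖ + ‖c z - z‖ := by
        have : (f1 ∘ c) z - z = (f1 (c z) - c z) + (c z - z) := by simp
        rw [this]; exact norm_add_le _ _
      push_cast
      have h4 : ‖c z - z‖ ≤ 6 * s := h2
      linarith
    · intro z hz
      by_cases hzV : z ∈ V1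
      · left; exact hzV
      · right; exact hTV' ⟨z, ⟨hz, hzV⟩, rfl⟩
    · rw [image_union]
      refine Lin.union ?_ ?_
      · rw [image_comp]
        exact (col_Lin hg0PA).image hf1PA
      · refine hLin1.mono ?_
        rintro _ ⟨z, hz, rfl⟩
        exact ⟨c z, hz, rfl⟩

lemma pairwise_or {α : Type*} {R : α → α → Prop} {l : List α} (h : l.Pairwise R) {p q : α}
    (hp : p ∈ l) (hq : q ∈ l) (hne : p ≠ q) : R p q ∨ R q p := by
  induction l with
  | nil => simp at hp
  | cons a l ih =>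
    rw [List.pairwise_cons] at h
    rcases List.mem_cons.1 hp with hp1 | hp1
    · rcases List.mem_cons.1 hq with hq1 | hq1
      · exact absurd (hp1.trans hq1.symm) hne
      · rw [hp1]; exact Or.inl (h.1 q hq1)
    · rcases List.mem_cons.1 hq with hq1 | hq1
      · rw [hq1]; exact Or.inr (h.1 p hp1)
      · exact ih h.2 hp1 hq1

lemma norm_pt_le {u : ℂ} (hu : ‖u‖ = 1) (x y : ℝ) : ‖pt u x y‖ ≤ |x| + |y| := by
  unfold pt
  rw [norm_mul, hu, one_mul]
  refine (norm_add_le _ _).trans ?_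
  rw [norm_mul, Complex.norm_I, mul_one]
  simp only [Complex.norm_real, Real.norm_eq_abs]
  exact le_rfl

/-- chains for the wide cone are short -/
lemma chain_short {u : ℂ} (hu : ‖u‖ = 1) {d : ℝ≥0} (hd0 : 0 < d) {η ρ s : ℝ} (hs : 0 < s) (hsρ : s ≤ ρ)
    {T : Set ℂ} (hthin : ∀ g : ℝ → ℝ, LipschitzWith d⁻¹ g → volume (wid u g (cthickening ρ T)) ≤ ENNReal.ofReal η)
    (hη : 0 ≤ η) {P : Finset ℂ} (hPT : (P : Set ℂ) ⊆ T) (hsep : ∀ p ∈ P, ∀ q ∈ P, p ≠ q → s < dist p q)
    (l : List ℂ) (hl : l.Pairwise (fun p q => (d : ℝ) * |Y u q - Y u p| < X u q - X u p)) (hlP : ∀ p ∈ l, p ∈ P) :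
    (l.length : ℝ) * s ≤ η * (1 + (d : ℝ)⁻¹) := by
  classical
  have hdR : (0 : ℝ) < d := by exact_mod_cast hd0
  set K : ℝ := 1 + (d : ℝ)⁻¹ with hK
  have hK0 : 0 < K := by positivity
  have hnodup : l.Nodup := hl.imp (by
    rintro a b hab rfl
    simp at hab)
  -- symmetric form
  have hsym : ∀ p ∈ l.toFinset, ∀ q ∈ l.toFinset, p ≠ q → (d : ℝ) * |Y u p - Y u q| < |X u p - X u q| := by
    intro p hp q hq hpq
    rw [List.mem_toFinset] at hp hq
    rcases pairwise_or hl hp hq hpq with h | h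
    · rw [abs_sub_comm (Y u p), abs_sub_comm (X u p)]
      exact h.trans_le (le_abs_self _)
    · exact h.trans_le (le_abs_self _)
  have hsym' : ∀ p ∈ l.toFinset, ∀ q ∈ l.toFinset, |Y u p - Y u q| ≤ ((d⁻¹ : ℝ≥0) : ℝ) * |X u p - X u q| := by
    intro p hp q hq
    by_cases hpq : p = q
    · subst hpq; simp
    · have := (hsym p hp q hq hpq).le
      rw [NNReal.coe_inv, inv_mul_eq_div, le_div_iff₀ hdR]
      linarith
  obtain ⟨G, hG, -, hGi⟩ := interp d⁻¹ (l.toFinset.image (fun p => (X u p, Y u p))) (by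
    intro p hp q hq
    obtain ⟨a, ha, rfl⟩ := Finset.mem_image.1 hp
    obtain ⟨b, hb, rfl⟩ := Finset.mem_image.1 hq
    exact hsym' a ha b hb)
  have hGp : ∀ p ∈ l.toFinset, G (X u p) = Y u p := fun p hp => hGi _ (Finset.mem_image.2 ⟨p, hp, rfl⟩)
  set r : ℝ := s / (2 * K) with hr
  have hr0 : 0 < r := by positivity
  have hKr : K * r = s / 2 := by rw [hr]; field_simp
  have hsub : ⋃ p ∈ l.toFinset, closedBall (X u p) r ⊆ wid u G (cthickening ρ T) := by
    refine iUnion₂_subset fun p hp t ht => ?_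
    rw [mem_closedBall, Real.dist_eq] at ht
    refine mem_cthickening_of_dist_le _ p ρ T (hPT (hlP p (List.mem_toFinset.1 hp))) ?_
    rw [dist_eq_norm]
    have e1 : pt u t (G t) - p = pt u (t - X u p) (G t - Y u p) := by
      conv_lhs => rw [← pt_XY hu p, pt_sub]
    rw [e1]
    refine (norm_pt_le hu _ _).trans ?_
    have h2 := hG.dist_le_mul t (X u p)
    rw [Real.dist_eq, Real.dist_eq, hGp p hp, NNReal.coe_inv] at h2
    have h3 : |t - X u p| + |G t - Y u p| ≤ K * r := by
      have h4 : (d : ℝ)⁻¹ * |t - X u p| ≤ (d : ℝ)⁻¹ * r := by gcongr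
      rw [hK]; linarith
    linarith
  have hdisj : Set.PairwiseDisjoint (l.toFinset : Set ℂ) (fun p => closedBall (X u p) r) := by
    intro p hp q hq hpq
    refine closedBall_disjoint_closedBall ?_
    have h1 := hsep p (hlP p (List.mem_toFinset.1 hp)) q (hlP q (List.mem_toFinset.1 hq)) hpq
    rw [dist_eq_norm] at h1
    have e1 : p - q = pt u (X u p - X u q) (Y u p - Y u q) := by
      rw [← pt_sub, pt_XY hu, pt_XY hu]
    have h2 : ‖p - q‖ ≤ K * |X u p - X u q| := by
      rw [e1]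
      refine (norm_pt_le hu _ _).trans ?_
      have := hsym' p hp q hq
      rw [NNReal.coe_inv] at this
      rw [hK]; linarith
    rw [Real.dist_eq]
    have h3 : K * (r + r) < K * |X u p - X u q| := by linarith
    exact lt_of_mul_lt_mul_left h3 hK0.le
  have h1 : volume (⋃ p ∈ l.toFinset, closedBall (X u p) r) = ∑ p ∈ l.toFinset, volume (closedBall (X u p) r) :=
    measure_biUnion_finset hdisj (fun p _ => measurableSet_closedBall)
  have h2 : ∑ p ∈ l.toFinset, volume (closedBall (X u p) r) = ENNReal.ofReal (l.length * (2 * r)) := by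
    have e2 : ENNReal.ofReal ((l.length : ℝ) * (2 * r)) = (l.length : ℝ≥0∞) * ENNReal.ofReal (2 * r) := by
      rw [ENNReal.ofReal_mul (by positivity), ENNReal.ofReal_natCast]
    rw [Finset.sum_congr rfl (fun p _ => Real.volume_closedBall (X u p) r), Finset.sum_const, nsmul_eq_mul,
      List.toFinset_card_of_nodup hnodup, e2]
  have h3 : ENNReal.ofReal (l.length * (2 * r)) ≤ ENNReal.ofReal η := by
    rw [← h2, ← h1]
    exact (measure_mono hsub).trans (hthin G hG)
  have h4 := (ENNReal.ofReal_le_ofReal_iff hη).1 h3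
  have h5 : (l.length : ℝ) * (2 * r) * K ≤ η * K := by gcongr
  have h6 : (l.length : ℝ) * (2 * r) * K = l.length * s := by
    have : 2 * (K * r) = s := by rw [hKr]; ring
    calc (l.length : ℝ) * (2 * r) * K = l.length * (2 * (K * r)) := by ring
      _ = l.length * s := by rw [this]
  linarith

/-- Step E -/
lemma stepE {u : ℂ} (hu : ‖u‖ = 1) {d : ℝ≥0} (hd0 : 0 < d) (hd : d ≤ 1) {T : Set ℂ} (hT : IsCompact T)
    (h0 : ∀ g : ℝ → ℝ, LipschitzWith d⁻¹ g → volume (wid u g T) = 0) {ε : ℝ} (hε : 0 < ε) :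
    ∃ f : ℂ → ℂ, ∃ V : Set ℂ, Ty u d f ∧ PA f ∧ (∀ z, ‖f z - z‖ ≤ ε) ∧
      IsOpen V ∧ T ⊆ V ∧ Lin (f '' V) := by
  have hdR : (0 : ℝ) < d := by exact_mod_cast hd0
  set K : ℝ := 1 + (d : ℝ)⁻¹ with hK
  have hK0 : 0 < K := by positivity
  set η : ℝ := ε / (6 * K) with hη
  have hη0 : 0 < η := by positivity
  obtain ⟨ρ, hρ, hthin⟩ := compactness hu hT h0 hη0
  obtain ⟨P, hPT, hcov, hsep⟩ := exists_net hT hρ
  obtain ⟨Fs, hlen, hFcov, hFs⟩ := mirsky (fun p q : ℂ => (d : ℝ) * |Y u q - Y u p| < X u q - X u p) (by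
      intro a b c hab hbc
      have h1 : |Y u c - Y u a| ≤ |Y u c - Y u b| + |Y u b - Y u a| := abs_sub_le _ _ _
      have h2 := mul_le_mul_of_nonneg_left h1 hdR.le
      linarith) ⌊η * K / ρ⌋₊ P (by
      intro l hl hlP
      rw [Nat.le_floor_iff (by positivity), le_div_iff₀ hρ]
      exact chain_short hu hd0 hρ le_rfl hthin hη0.le hPT hsep l hl hlP)
  obtain ⟨f, V, h1, h2, h3, h4, h5, h6⟩ := stack hu hρ Fs.length Fs rfl (by
      intro F hF p hp q hq
      have h1 := hFs F hF p hp q hq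
      have h2 := hFs F hF q hq p hp
      rw [not_lt] at h1 h2
      rw [abs_sub_comm (Y u q)] at h1
      rw [abs_le]; constructor <;> linarith) T hT (by
      intro z hz
      obtain ⟨p, hp, hzp⟩ := mem_iUnion₂.1 (hcov hz)
      obtain ⟨F, hF, hpF⟩ := hFcov p hp
      exact ⟨F, hF, p, hpF, closedBall_subset_box hu (by exact_mod_cast hd) hzp⟩)
  refine ⟨f, V, h1, h2, fun z => (h3 z).trans ?_, h4, h5, h6⟩
  have h7 : (Fs.length : ℝ) ≤ η * K / ρ := by
    have : (Fs.length : ℝ) ≤ (⌊η * K / ρ⌋₊ : ℝ) := by exact_mod_cast hlen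
    exact this.trans (Nat.floor_le (by positivity))
  calc 6 * ρ * (Fs.length : ℝ) ≤ 6 * ρ * (η * K / ρ) := by gcongr
    _ = ε := by rw [hη]; field_simp

end

end NullContr
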