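import Pool.Agent.Work.MP_91555f_an.Basic

/-!
# Greedy collapse in one direction
-/

open MeasureTheory Set Metric
open scoped ENNReal NNReal ComplexConjugate

namespace NullContr

noncomputable section

/-- parameters for which the curve `x = g y` of the frame `u` is in `T` -/
def hit (u : ℂ) (g : ℝ → ℝ) (T : Set ℂ) : Set ℝ := {t | pt u (g t) t ∈ T}

lemma hit_mono (u : ℂ) (g : ℝ → ℝ) {S T : Set ℂ} (h : S ⊆ T) : hit u g S ⊆ hit u g T :=
  fun _ ht => h ht

open Classical in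
/-- centres whose doubled box is touched by the curve -/
def touch (u : ℂ) (d : ℝ) (g : ℝ → ℝ) (s : ℝ) (P : Finset ℂ) : Finset ℂ :=
  P.filter (fun p => ∃ t : ℝ, pt u (g t) t ∈ Box u d p (2 * s))

/-- the terminal case of the greedy algorithm -/
lemma terminal {u : ℂ} (hu : ‖u‖ = 1) {d : ℝ≥0} (hd0 : 0 < d) (hd : d ≤ 1) {η s : ℝ}
    (hη : 0 < η) (hs : 0 < s) (P : Finset ℂ) {T : Set ℂ}
    (hT : T ⊆ ⋃ p ∈ P, Box u d p s) (g : ℝ → ℝ)
    (hg : ((touch u d g s P).card : ℝ) * (4 * s / d) ≤ η) :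
    volume (hit u g (thickening s T)) ≤ ENNReal.ofReal η := by
  classical
  set Pg : Finset ℂ := touch u d g s P with hPg
  have hsub : hit u g (thickening s T) ⊆ ⋃ p ∈ Pg, closedBall (Y u p) (2 * s / d) := by
    intro t ht
    obtain ⟨z, hzT, hz⟩ := mem_thickening_iff.1 ht
    obtain ⟨p, hp, hzp⟩ := mem_iUnion₂.1 (hT hzT)
    rw [dist_eq_norm] at hz
    have h1 : pt u (g t) t ∈ Box u d p (2 * s) := by
      constructor
      · have h1 := (abs_X_le hu (pt u (g t) t - z)).trans hz.le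
        rw [X_sub] at h1
        have h2 := hzp.1
        calc |X u (pt u (g t) t) - X u p| ≤ |X u (pt u (g t) t) - X u z| + |X u z - X u p| := abs_sub_le _ _ _
          _ ≤ 2 * s := by linarith
      · have h1 := (abs_Y_le hu (pt u (g t) t - z)).trans hz.le
        rw [Y_sub] at h1
        have h2 := hzp.2
        have h3 : |Y u (pt u (g t) t) - Y u p| ≤ |Y u (pt u (g t) t) - Y u z| + |Y u z - Y u p| := abs_sub_le _ _ _
        have h4 : (d : ℝ) * |Y u (pt u (g t) t) - Y u z| ≤ 1 * |Y u (pt u (g t) t) - Y u z| := by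
          gcongr; exact_mod_cast hd
        nlinarith [mul_le_mul_of_nonneg_left h3 d.coe_nonneg]
    refine mem_iUnion₂.2 ⟨p, by rw [hPg, touch]; exact Finset.mem_filter.2 ⟨hp, t, h1⟩, ?_⟩
    rw [mem_closedBall, Real.dist_eq]
    have h2 := h1.2
    rw [Y_pt hu] at h2
    rw [le_div_iff₀ (by exact_mod_cast hd0)]
    linarith
  calc volume (hit u g (thickening s T)) ≤ volume (⋃ p ∈ Pg, closedBall (Y u p) (2 * s / d)) := measure_mono hsub
    _ ≤ ∑ p ∈ Pg, volume (closedBall (Y u p) (2 * s / d)) := measure_biUnion_finset_le _ _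
    _ = ∑ p ∈ Pg, ENNReal.ofReal (4 * s / d) := by
        refine Finset.sum_congr rfl fun p _ => ?_
        rw [Real.volume_closedBall]; congr 1; ring
    _ = ENNReal.ofReal (Pg.card * (4 * s / d)) := by
        rw [Finset.sum_const, nsmul_eq_mul, ENNReal.ofReal_mul (by positivity)]
        simp
    _ ≤ ENNReal.ofReal η := by
        exact ENNReal.ofReal_le_ofReal hg

/-- approximation of a Lipschitz function on a bounded interval by a piecewise affine one -/
lemma pa_approx {d : ℝ≥0} (hd : d ≤ 1) {g : ℝ → ℝ} (hg : LipschitzWith d g) (R : ℝ) {s : ℝ} (hs : 0 < s) :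
    ∃ G : ℝ → ℝ, LipschitzWith d G ∧ PA1 G ∧ ∀ t, |t| ≤ R → |G t - g t| ≤ s := by
  classical
  have hc : IsCompact (Icc (-R) R) := isCompact_Icc
  obtain ⟨A, -, hA, hcov⟩ := hc.finite_cover_balls (e := s / 2) (by positivity)
  obtain ⟨G, hG, hPA, hGi⟩ := interp d (hA.toFinset.image (fun t => (t, g t))) (by
    intro p hp q hq
    obtain ⟨a, -, rfl⟩ := Finset.mem_image.1 hp
    obtain ⟨b, -, rfl⟩ := Finset.mem_image.1 hq
    have := hg.dist_le_mul a b
    rwa [Real.dist_eq, Real.dist_eq] at this)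
  refine ⟨G, hG, hPA, fun t ht => ?_⟩
  obtain ⟨a, ha, hat⟩ := mem_iUnion₂.1 (hcov (abs_le.1 ht))
  have h1 : G a = g a := hGi (a, g a) (Finset.mem_image.2 ⟨a, hA.mem_toFinset.2 ha, rfl⟩)
  have h2 := hG.dist_le_mul t a
  have h3 := hg.dist_le_mul a t
  rw [mem_ball, Real.dist_eq] at hat
  rw [Real.dist_eq, Real.dist_eq] at h2 h3
  have hd' : (d : ℝ) ≤ 1 := by exact_mod_cast hd
  have h4 : (d : ℝ) * |t - a| ≤ 1 * |t - a| := by gcongr
  have h5 : (d : ℝ) * |a - t| ≤ 1 * |t - a| := by rw [abs_sub_comm a t]; gcongr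
  have h6 : |G t - g t| ≤ |G t - G a| + |G a - g t| := abs_sub_le _ _ _
  rw [h1] at h6 h2
  linarith

/-- the greedy algorithm -/
lemma greedy {u : ℂ} (hu : ‖u‖ = 1) {d : ℝ≥0} (hd0 : 0 < d) (hd : d ≤ 1) {η s : ℝ}
    (hη : 0 < η) (hs : 0 < s) : ∀ n : ℕ, ∀ P : Finset ℂ, P.card ≤ n → ∀ T : Set ℂ, IsCompact T →
    T ⊆ ⋃ p ∈ P, Box u d p s →
    ∃ f : ℂ → ℂ, ∃ V : Set ℂ, Ty u d f ∧ PA f ∧ (∀ z, ‖f z - z‖ ≤ 64 * s ^ 2 / (η * d) * n) ∧
      IsOpen V ∧ Lin (f '' V) ∧
      (∃ F : Set ℂ, F.Finite ∧ f '' (T \ V) ⊆ ⋃ a ∈ F, (fun z => z + a) '' T) ∧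
      ∀ g : ℝ → ℝ, LipschitzWith d g → volume (hit u g (thickening s (f '' (T \ V)))) ≤ ENNReal.ofReal η := by
  classical
  intro n
  induction n using Nat.strong_induction_on with
  | _ n ih =>
  intro P hPn T hT hcov
  by_cases hterm : ∀ g : ℝ → ℝ, LipschitzWith d g →
    ((touch u d g s P).card : ℝ) * (4 * s / d) ≤ η
  · refine ⟨id, ∅, Ty.id u d, PA.id, fun z => ?_, isOpen_empty, by simpa using Lin.empty, ?_, ?_⟩
    · simp; positivity
    · exact ⟨{0}, Set.finite_singleton _, by simp⟩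
    · intro g hg
      simpa using terminal hu hd0 hd hη hs P hcov g (hterm g hg)
  · push Not at hterm
    obtain ⟨g, hg, hbig⟩ := hterm
    have hdR : (0 : ℝ) < d := by exact_mod_cast hd0
    have hd1 : (d : ℝ) ≤ 1 := by exact_mod_cast hd
    set P1 : Finset ℂ := touch u d g s P with hP1
    have hbig' : η < (P1.card : ℝ) * (4 * s / d) := hbig
    have hP1pos : 0 < P1.card := by
      by_contra h
      have : P1.card = 0 := by omega
      rw [this] at hbig'
      simp at hbig'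
      linarith
    -- bound for T
    obtain ⟨R, hR⟩ := hT.isBounded.exists_norm_le
    obtain ⟨G, hG, hGPA, hGg⟩ := pa_approx hd hg R hs
    -- the strip
    set g0 : ℝ → ℝ := fun t => G t - 8 * s with hg0
    have hg0L : LipschitzWith d g0 := by
      have := hG.sub (LipschitzWith.const (8 * s))
      simpa using this
    have hg0PA : PA1 g0 := by
      obtain ⟨A, hA, h1⟩ := hGPA
      refine ⟨(fun a : ℝ × ℝ => (a.1 - 8 * s, a.2)) '' A, hA.image _, fun t => ?_⟩
      obtain ⟨a, ha, h2⟩ := h1 t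
      refine ⟨_, ⟨a, ha, rfl⟩, ?_⟩
      simp only [hg0, h2]; ring
    set c := col u g0 (16 * s) with hc
    have hw : 0 ≤ 16 * s := by positivity
    set V1 : Set ℂ := {z | g0 (Y u z) < X u z ∧ X u z < g0 (Y u z) + 16 * s} with hV1
    have hV1o : IsOpen V1 := isOpen_strip hg0L.continuous
    have hcTy : Ty u d c := col_Ty hu hg0L _
    have hcPA : PA c := col_PA hu hg0PA hw
    have hcc : Continuous c := hcTy.continuous hu
    set T1 : Set ℂ := c '' (T \ V1) with hT1
    have hT1c : IsCompact T1 := (hT.diff hV1o).image hcc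
    set P' : Finset ℂ := (P \ P1).image c with hP'
    have hP'card : P'.card + P1.card ≤ n := by
      have h1 : P'.card ≤ (P \ P1).card := Finset.card_image_le
      have h2 : (P \ P1).card + P1.card = P.card := Finset.card_sdiff_add_card_eq_card (by
        rw [hP1, touch]; exact Finset.filter_subset _ _)
      omega
    have hcov1 : T1 ⊆ ⋃ p ∈ P', Box u d p s := by
      rintro _ ⟨z, ⟨hzT, hzV⟩, rfl⟩
      obtain ⟨p, hp, hzp⟩ := mem_iUnion₂.1 (hcov hzT)
      have hpP1 : p ∉ P1 := by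
        intro hpP1
        rw [hP1, touch] at hpP1
        obtain ⟨-, t, ht⟩ := Finset.mem_filter.1 hpP1
        apply hzV
        have h1 := ht.1
        have h2 := ht.2
        rw [X_pt hu] at h1
        rw [Y_pt hu] at h2
        have h3 := hzp.1
        have h4 := hzp.2
        have h5 := hg.dist_le_mul t (Y u z)
        rw [Real.dist_eq, Real.dist_eq] at h5
        have h6 : |t - Y u z| ≤ |t - Y u p| + |Y u z - Y u p| := by
          rw [abs_sub_comm (Y u z) (Y u p)]; exact abs_sub_le _ _ _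
        have h7 : (d : ℝ) * |t - Y u z| ≤ 3 * s := by
          nlinarith [mul_le_mul_of_nonneg_left h6 hdR.le]
        have h8 := hGg (Y u z) ((abs_Y_le hu z).trans (hR z hzT))
        rw [abs_le] at h1 h3 h8
        have h9 := (h5.trans h7)
        rw [abs_le] at h9
        simp only [hV1, hg0, mem_ofPred_eq]
        constructor <;> linarith
      refine mem_iUnion₂.2 ⟨c p, Finset.mem_image.2 ⟨p, Finset.mem_sdiff.2 ⟨hp, hpP1⟩, rfl⟩, hcTy.box hzp⟩
    obtain ⟨f1, V', hf1Ty, hf1PA, hf1d, hV'o, hLin1, ⟨F1, hF1, hF1s⟩, hf1η⟩ :=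
      ih (n - P1.card) (by omega) P' (by omega) T1 hT1c hcov1
    refine ⟨f1 ∘ c, V1 ∪ c ⁻¹' V', hf1Ty.comp hcTy, hf1PA.comp hcPA, fun z => ?_,
      hV1o.union (hV'o.preimage hcc), ?_, ?_, ?_⟩
    · have h1 := hf1d (c z)
      have h2 := norm_col_sub_le hu (g := g0) hw z
      have h3 : ‖(f1 ∘ c) z - z‖ ≤ ‖f1 (c z) - c z‖ + ‖c z - z‖ := by
        have : (f1 ∘ c) z - z = (f1 (c z) - c z) + (c z - z) := by simp
        rw [this]; exact norm_add_le _ _
      have h4 : (64 * s ^ 2 / (η * d)) * P1.card ≥ 16 * s := by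
        rw [ge_iff_le, div_mul_eq_mul_div, le_div_iff₀ (by positivity)]
        have h5 : η * d < P1.card * (4 * s) := by
          have := mul_lt_mul_of_pos_right hbig' hdR
          have h6 : (P1.card : ℝ) * (4 * s / d) * d = P1.card * (4 * s) := by
            field_simp
          linarith
        nlinarith
      have h5 : ((n - P1.card : ℕ) : ℝ) = n - P1.card := by
        rw [Nat.cast_sub]; omega
      rw [h5] at h1
      calc ‖(f1 ∘ c) z - z‖ ≤ 64 * s ^ 2 / (η * d) * (n - P1.card) + 16 * s := by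
            refine h3.trans ?_
            gcongr
        _ ≤ 64 * s ^ 2 / (η * d) * n := by linarith
    · rw [image_union]
      refine Lin.union ?_ ?_
      · rw [image_comp]
        exact (col_Lin hg0PA).image hf1PA
      · refine hLin1.mono ?_
        rintro _ ⟨z, hz, rfl⟩
        exact ⟨c z, hz, rfl⟩
    · refine ⟨F1 ∪ (fun a => pt u (-(16 * s)) 0 + a) '' F1, hF1.union (hF1.image _), ?_⟩
      rintro _ ⟨z, ⟨hzT, hzV⟩, rfl⟩
      simp only [mem_union, mem_preimage, not_or] at hzV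
      have h1 : c z ∈ T1 := ⟨z, ⟨hzT, hzV.1⟩, rfl⟩
      obtain ⟨a, ha, w, hw1, hw2⟩ := mem_iUnion₂.1 (hF1s ⟨c z, ⟨h1, hzV.2⟩, rfl⟩)
      simp only at hw2
      rcases col_image_subset hu hw T hw1 with hw3 | ⟨w', hw', hw3⟩
      · exact mem_iUnion₂.2 ⟨a, Or.inl ha, w, hw3, hw2⟩
      · refine mem_iUnion₂.2 ⟨_, Or.inr ⟨a, ha, rfl⟩, w', hw', ?_⟩
        simp only at hw3 ⊢
        rw [Function.comp_apply, ← hw2, ← hw3]; ring
    · intro g' hg'
      refine (measure_mono (hit_mono u g' (thickening_subset_of_subset s ?_))).trans (hf1η g' hg')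
      rintro _ ⟨z, ⟨hzT, hzV⟩, rfl⟩
      simp only [mem_union, mem_preimage, not_or] at hzV
      exact ⟨c z, ⟨⟨z, ⟨hzT, hzV.1⟩, rfl⟩, hzV.2⟩, rfl⟩

/-- nets -/
lemma exists_net {T : Set ℂ} (hT : IsCompact T) {s : ℝ} (hs : 0 < s) :
    ∃ P : Finset ℂ, (P : Set ℂ) ⊆ T ∧ T ⊆ ⋃ p ∈ P, closedBall p s ∧
      ∀ p ∈ P, ∀ q ∈ P, p ≠ q → s < dist p q := by
  have hs' : Real.toNNReal s ≠ 0 := by simp [hs]
  have hpk : packingNumber (Real.toNNReal s) T ≠ ⊤ := by
    have h1 : packingNumber (2 * (Real.toNNReal (s / 2))) T ≤ externalCoveringNumber (Real.toNNReal (s / 2)) T :=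
      packingNumber_two_mul_le_externalCoveringNumber _ _
    have h2 : 2 * (Real.toNNReal (s / 2)) = Real.toNNReal s := by
      apply NNReal.eq
      rw [NNReal.coe_mul, Real.coe_toNNReal _ hs.le, Real.coe_toNNReal _ (by positivity)]
      push_cast; ring
    rw [h2] at h1
    obtain ⟨N, hNs, hNf, hN⟩ := exists_finite_isCover_of_isCompact (ε := Real.toNNReal (s / 2)) (by simp [hs]) hT
    have h3 : externalCoveringNumber (Real.toNNReal (s / 2)) T ≤ N.encard :=
      (externalCoveringNumber_le_coveringNumber _ _).trans (hN.coveringNumber_le_encard hNs)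
    exact ne_top_of_le_ne_top (Set.encard_ne_top_iff.2 hNf) (h1.trans h3)
  have hfin : (maximalSeparatedSet (Real.toNNReal s) T).Finite := by
    apply Set.encard_ne_top_iff.1
    rw [encard_maximalSeparatedSet hpk]; exact hpk
  refine ⟨hfin.toFinset, ?_, ?_, ?_⟩
  · rw [Set.Finite.coe_toFinset]; exact maximalSeparatedSet_subset
  · have h := isCover_iff_subset_iUnion_closedBall.1 (isCover_maximalSeparatedSet hpk)
    rw [Real.coe_toNNReal _ hs.le] at h
    intro z hz
    obtain ⟨p, hp, hzp⟩ := mem_iUnion₂.1 (h hz)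
    exact mem_iUnion₂.2 ⟨p, hfin.mem_toFinset.2 hp, hzp⟩
  · intro p hp q hq hpq
    have h := isSeparated_maximalSeparatedSet (ε := Real.toNNReal s) (A := T) (hfin.mem_toFinset.1 hp) (hfin.mem_toFinset.1 hq) hpq
    change _ < edist p q at h
    rw [edist_dist] at h
    rw [← Real.coe_toNNReal s hs.le]
    by_contra hcon
    push Not at hcon
    have := ENNReal.ofReal_le_ofReal hcon
    rw [ENNReal.ofReal_coe_nnreal] at this
    exact absurd h (not_lt.2 this)

/-- small covers of compact null sets -/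
lemma exists_small_cover {T : Set ℂ} (hT : IsCompact T) (hT0 : volume T = 0) {κ : ℝ} (hκ : 0 < κ) :
    ∃ s : ℝ, 0 < s ∧ ∃ P : Finset ℂ, T ⊆ ⋃ p ∈ P, closedBall p s ∧ s ^ 2 * P.card ≤ κ := by
  obtain ⟨O, hTO, hO, hOv⟩ := Set.exists_isOpen_lt_of_lt T (ENNReal.ofReal (κ / 4)) (by rw [hT0]; simpa using hκ)
  obtain ⟨r, hr, hrO⟩ := hT.exists_cthickening_subset_open hO hTO
  obtain ⟨P, hPT, hcov, hsep⟩ := exists_net hT hr
  refine ⟨r, hr, P, hcov, ?_⟩
  have hdisj : Set.PairwiseDisjoint (P : Set ℂ) (fun p => ball p (r / 2)) := by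
    intro p hp q hq hpq
    refine ball_disjoint_ball ?_
    have := hsep p hp q hq hpq
    linarith
  have hsub : ⋃ p ∈ P, ball p (r / 2) ⊆ O := by
    intro z hz
    obtain ⟨p, hp, hzp⟩ := mem_iUnion₂.1 hz
    apply hrO
    refine mem_cthickening_of_dist_le z p r T (hPT hp) ?_
    have := mem_ball.1 hzp
    linarith
  have h1 : volume (⋃ p ∈ P, ball p (r / 2)) = ∑ p ∈ P, volume (ball p (r / 2)) :=
    measure_biUnion_finset hdisj (fun p _ => measurableSet_ball)
  have h2 : ∑ p ∈ P, volume (ball (p : ℂ) (r / 2)) = P.card * (ENNReal.ofReal (r / 2) ^ 2 * NNReal.pi) := by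
    rw [Finset.sum_congr rfl (fun p _ => Complex.volume_ball p (r / 2)), Finset.sum_const, nsmul_eq_mul]
  have h3 : (P.card : ℝ≥0∞) * (ENNReal.ofReal (r / 2) ^ 2 * NNReal.pi) ≤ ENNReal.ofReal (κ / 4) := by
    rw [← h2, ← h1]
    exact (measure_mono hsub).trans hOv.le
  have h4 : ENNReal.ofReal (P.card * ((r / 2) ^ 2 * 1)) ≤ ENNReal.ofReal (κ / 4) := by
    refine le_trans ?_ h3
    rw [ENNReal.ofReal_mul (by positivity), ENNReal.ofReal_mul (by positivity), ENNReal.ofReal_pow (by positivity)]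
    rw [ENNReal.ofReal_natCast]
    gcongr
    simp only [ENNReal.ofReal_one]
    have : (1 : ℝ≥0) ≤ NNReal.pi := by
      rw [← NNReal.coe_le_coe, NNReal.coe_real_pi]
      have := Real.pi_gt_three
      push_cast; linarith
    exact_mod_cast this
  have h5 := (ENNReal.ofReal_le_ofReal_iff (by positivity)).1 h4
  nlinarith

/-- Step A -/
lemma stepA {u : ℂ} (hu : ‖u‖ = 1) {d : ℝ≥0} (hd0 : 0 < d) (hd : d ≤ 1) {η κ : ℝ}
    (hη : 0 < η) (hκ : 0 < κ) {T : Set ℂ} (hT : IsCompact T) (hT0 : volume T = 0) :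
    ∃ f : ℂ → ℂ, ∃ V : Set ℂ, Ty u d f ∧ PA f ∧ (∀ z, ‖f z - z‖ ≤ κ) ∧
      IsOpen V ∧ Lin (f '' V) ∧
      (∃ F : Set ℂ, F.Finite ∧ f '' (T \ V) ⊆ ⋃ a ∈ F, (fun z => z + a) '' T) ∧
      ∃ ρ > 0, ∀ g : ℝ → ℝ, LipschitzWith d g →
        volume (hit u g (thickening ρ (f '' (T \ V)))) ≤ ENNReal.ofReal η := by
  have hdR : (0 : ℝ) < d := by exact_mod_cast hd0
  obtain ⟨s, hs, P, hcov, hP⟩ := exists_small_cover hT hT0 (κ := κ * (η * d) / 64) (by positivity)
  have hcov' : T ⊆ ⋃ p ∈ P, Box u d p s := by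
    refine hcov.trans (iUnion₂_mono fun p _ => closedBall_subset_box hu (by exact_mod_cast hd))
  obtain ⟨f, V, h1, h2, h3, h4, h5, h6, h7⟩ := greedy hu hd0 hd hη hs P.card P le_rfl T hT hcov'
  refine ⟨f, V, h1, h2, fun z => (h3 z).trans ?_, h4, h5, h6, s, hs, h7⟩
  rw [div_mul_eq_mul_div, div_le_iff₀ (by positivity)]
  linarith

end

end NullContr
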