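import Pool.Agent.Work.MP_91555f_an.Greedy

/-!
# The limiting procedure in one direction
-/

open MeasureTheory Set Metric Filter Topology
open scoped ENNReal NNReal ComplexConjugate

namespace NullContr

noncomputable section

/-- robustly small intersections with all curves of the frame `u` -/
def Thin (u : ℂ) (d : ℝ≥0) (T : Set ℂ) : Prop :=
  ∀ η : ℝ, 0 < η → ∃ ρ > 0, ∀ g : ℝ → ℝ, LipschitzWith d g →
    volume (hit u g (thickening ρ T)) ≤ ENNReal.ofReal η

lemma volume_hit_translate {u : ℂ} (hu : ‖u‖ = 1) (g : ℝ → ℝ) (W : Set ℂ) (a : ℂ) :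
    volume (hit u g ((fun z => z + a) '' W)) = volume (hit u (fun t => g (t + Y u a) - X u a) W) := by
  have : hit u g ((fun z => z + a) '' W) =
      (fun t => t - Y u a) ⁻¹' (hit u (fun t => g (t + Y u a) - X u a) W) := by
    ext t
    simp only [hit, mem_ofPred_eq, mem_preimage, mem_image]
    have key : pt u (g (t - Y u a + Y u a) - X u a) (t - Y u a) = pt u (g t) t - a := by
      conv_rhs => rw [← pt_XY hu a, pt_sub]
      rw [sub_add_cancel]
    rw [key]
    constructor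
    · rintro ⟨z, hz, h⟩
      rw [← h]; simpa using hz
    · intro h
      exact ⟨_, h, by ring⟩
  rw [this]
  have h2 : (fun t : ℝ => t - Y u a) = (fun t => t + (-Y u a)) := by
    funext t; ring
  rw [h2]
  exact measure_preimage_add_right volume _ _

lemma thickening_translate (ρ : ℝ) (T : Set ℂ) (a : ℂ) :
    thickening ρ ((fun z => z + a) '' T) ⊆ (fun z => z + a) '' thickening ρ T := by
  intro z hz
  obtain ⟨w, ⟨w', hw', rfl⟩, hw⟩ := mem_thickening_iff.1 hz
  refine ⟨z - a, mem_thickening_iff.2 ⟨w', hw', ?_⟩, by ring⟩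
  rw [dist_eq_norm] at hw ⊢
  have : z - a - w' = z - (w' + a) := by ring
  rw [this]; exact hw

lemma Thin.translates {u : ℂ} (hu : ‖u‖ = 1) {d : ℝ≥0} {T S F : Set ℂ} (hT : Thin u d T)
    (hF : F.Finite) (hS : S ⊆ ⋃ a ∈ F, (fun z => z + a) '' T) : Thin u d S := by
  intro η hη
  have hN : (0 : ℝ) < hF.toFinset.card + 1 := by positivity
  obtain ⟨ρ, hρ, h⟩ := hT (η / (hF.toFinset.card + 1)) (by positivity)
  refine ⟨ρ, hρ, fun g hg => ?_⟩
  have hsub : hit u g (thickening ρ S) ⊆ ⋃ a ∈ hF.toFinset, hit u g ((fun z => z + a) '' thickening ρ T) := by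
    intro t ht
    have h1 : pt u (g t) t ∈ thickening ρ (⋃ a ∈ F, (fun z => z + a) '' T) := thickening_subset_of_subset ρ hS ht
    obtain ⟨w, hw, hdw⟩ := mem_thickening_iff.1 h1
    obtain ⟨a, ha, hwa⟩ := mem_iUnion₂.1 hw
    refine mem_iUnion₂.2 ⟨a, hF.mem_toFinset.2 ha, ?_⟩
    exact thickening_translate ρ T a (mem_thickening_iff.2 ⟨w, hwa, hdw⟩)
  calc volume (hit u g (thickening ρ S)) ≤ volume (⋃ a ∈ hF.toFinset, hit u g ((fun z => z + a) '' thickening ρ T)) :=
        measure_mono hsub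
    _ ≤ ∑ a ∈ hF.toFinset, volume (hit u g ((fun z => z + a) '' thickening ρ T)) := measure_biUnion_finset_le _ _
    _ ≤ ∑ a ∈ hF.toFinset, ENNReal.ofReal (η / (hF.toFinset.card + 1)) := by
        refine Finset.sum_le_sum fun a _ => ?_
        rw [volume_hit_translate hu]
        apply h
        refine LipschitzWith.of_dist_le_mul fun t t' => ?_
        have := hg.dist_le_mul (t + Y u a) (t' + Y u a)
        simpa using this
    _ = ENNReal.ofReal (hF.toFinset.card * (η / (hF.toFinset.card + 1))) := by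
        rw [Finset.sum_const, nsmul_eq_mul, ENNReal.ofReal_mul (by positivity), ENNReal.ofReal_natCast]
    _ ≤ ENNReal.ofReal η := by
        apply ENNReal.ofReal_le_ofReal
        rw [mul_div_assoc', div_le_iff₀ hN]
        nlinarith

lemma Thin.null {u : ℂ} {d : ℝ≥0} {T : Set ℂ} (hT : Thin u d T) {g : ℝ → ℝ}
    (hg : LipschitzWith d g) : volume (hit u g T) = 0 := by
  refine le_antisymm (le_of_forall_pos_le_add ?_) zero_le
  intro e he
  rcases eq_or_ne e ⊤ with rfl | hetop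
  · simp
  have her : 0 < e.toReal := ENNReal.toReal_pos he.ne' hetop
  obtain ⟨ρ, hρ, h⟩ := hT e.toReal her
  rw [zero_add, ← ENNReal.ofReal_toReal hetop]
  exact (measure_mono (hit_mono u g (self_subset_thickening hρ T))).trans (h g hg)

/-- states of the limiting procedure -/
structure St where
  T : Set ℂ
  f : ℂ → ℂ
  V : Set ℂ
  r : ℝ

structure Good (u : ℂ) (d : ℝ≥0) (D T0 : Set ℂ) (ε : ℝ) (n : ℕ) (x : St) : Prop where
  cpt : IsCompact x.T
  null : volume x.T = 0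
  thin : ∀ v ∈ D, Thin v d x.T
  ty : Ty u d x.f
  pa : PA x.f
  disp : ∀ z, ‖x.f z - z‖ ≤ ε * (1 - (1 / 2) ^ n)
  op : IsOpen x.V
  lin : Lin (x.f '' x.V)
  sub : x.f '' (T0 \ x.V) ⊆ x.T
  pos : 0 < x.r

structure Rel (u : ℂ) (d : ℝ≥0) (D : Set ℂ) (n : ℕ) (x x' : St) : Prop where
  nest : cthickening x'.r x'.T ⊆ cthickening (x.r / 2) x.T
  vol : volume (cthickening x'.r x'.T) ≤ ENNReal.ofReal (1 / (n + 1))
  thin : ∀ v ∈ insert u D, ∀ g : ℝ → ℝ, LipschitzWith d g →
    volume (hit v g (cthickening x'.r x'.T)) ≤ ENNReal.ofReal (1 / (n + 1))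

lemma exists_volume_cthickening_le {T : Set ℂ} (hT : IsCompact T) (hT0 : volume T = 0) {κ : ℝ} (hκ : 0 < κ) :
    ∃ r : ℝ, 0 < r ∧ volume (cthickening r T) ≤ ENNReal.ofReal κ := by
  obtain ⟨O, hTO, hO, hOv⟩ := Set.exists_isOpen_lt_of_lt T (ENNReal.ofReal κ) (by rw [hT0]; simpa using hκ)
  obtain ⟨r, hr, hrO⟩ := hT.exists_cthickening_subset_open hO hTO
  exact ⟨r, hr, (measure_mono hrO).trans hOv.le⟩

lemma null_translates {T S F : Set ℂ} (hT0 : volume T = 0) (hF : F.Finite)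
    (hS : S ⊆ ⋃ a ∈ F, (fun z => z + a) '' T) : volume S = 0 := by
  refine measure_mono_null hS ?_
  rw [measure_biUnion_null_iff hF.countable]
  intro a _
  rw [show (fun z : ℂ => z + a) '' T = (fun z => z + (-a)) ⁻¹' T by
    ext z; simp only [mem_image, mem_preimage]
    constructor
    · rintro ⟨w, hw, rfl⟩; simpa using hw
    · intro h; exact ⟨_, h, by ring⟩]
  rw [measure_preimage_add_right]
  exact hT0

lemma step {u : ℂ} (hu : ‖u‖ = 1) {d : ℝ≥0} (hd0 : 0 < d) (hd : d ≤ 1) {D : Set ℂ} (hD : D.Finite)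
    (hD1 : ∀ v ∈ D, ‖v‖ = 1) {T0 : Set ℂ} {ε : ℝ} (hε : 0 < ε) (n : ℕ) (x : St)
    (hx : Good u d D T0 ε n x) : ∃ x' : St, Good u d D T0 ε (n + 1) x' ∧ Rel u d D n x x' := by
  have hr := hx.pos
  set κ : ℝ := min (x.r / 4) (ε * (1 / 2) ^ (n + 1)) with hκ
  have hκ0 : 0 < κ := lt_min (by positivity) (by positivity)
  obtain ⟨φ, W, h1, h2, h3, h4, h5, ⟨F, hF, h6⟩, ρ0, hρ0, h7⟩ :=
    stepA hu hd0 hd (η := 1 / (n + 1)) (κ := κ) (by positivity) hκ0 hx.cpt hx.null
  set T' : Set ℂ := φ '' (x.T \ W) with hT'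
  have hφc : Continuous φ := h1.continuous hu
  have hT'c : IsCompact T' := (hx.cpt.diff h4).image hφc
  have hT'0 : volume T' = 0 := null_translates hx.null hF h6
  have hT'thin : ∀ v ∈ D, Thin v d T' := fun v hv => (hx.thin v hv).translates (hD1 v hv) hF h6
  -- choice of the radius
  have e1 : ∀ᶠ ρ in 𝓝[>] (0 : ℝ), ∀ v ∈ insert u D, ∀ g : ℝ → ℝ, LipschitzWith d g →
      volume (hit v g (cthickening ρ T')) ≤ ENNReal.ofReal (1 / (n + 1)) := by
    rw [eventually_all_finite (hD.insert u)]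
    intro v hv
    have : ∃ ρ > 0, ∀ g : ℝ → ℝ, LipschitzWith d g →
        volume (hit v g (thickening ρ T')) ≤ ENNReal.ofReal (1 / (n + 1)) := by
      rcases mem_insert_iff.1 hv with rfl | hv
      · exact ⟨ρ0, hρ0, h7⟩
      · exact hT'thin v hv _ (by positivity)
    obtain ⟨ρ1, hρ1, h⟩ := this
    filter_upwards [Ioo_mem_nhdsGT hρ1] with ρ hρ g hg
    exact (measure_mono (hit_mono v g (cthickening_subset_thickening' hρ1 hρ.2 T'))).trans (h g hg)
  have e2 : ∀ᶠ ρ in 𝓝[>] (0 : ℝ), volume (cthickening ρ T') ≤ ENNReal.ofReal (1 / (n + 1)) := by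
    obtain ⟨r, hr, h⟩ := exists_volume_cthickening_le hT'c hT'0 (κ := 1 / (n + 1)) (by positivity)
    filter_upwards [Ioo_mem_nhdsGT hr] with ρ hρ
    exact (measure_mono (cthickening_mono hρ.2.le T')).trans h
  have e3 : ∀ᶠ ρ in 𝓝[>] (0 : ℝ), ρ < x.r / 4 ∧ 0 < ρ := by
    filter_upwards [Ioo_mem_nhdsGT (show (0 : ℝ) < x.r / 4 by positivity)] with ρ hρ
    exact ⟨hρ.2, hρ.1⟩
  obtain ⟨ρ, hρ1, hρ2, hρ3, hρ4⟩ := (e1.and (e2.and e3)).exists
  refine ⟨⟨T', φ ∘ x.f, x.V ∪ x.f ⁻¹' W, ρ⟩, ?_, ?_⟩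
  · have hfc : Continuous x.f := hx.ty.continuous hu
    refine ⟨hT'c, hT'0, hT'thin, h1.comp hx.ty, h2.comp hx.pa, fun z => ?_, hx.op.union (h4.preimage hfc), ?_, ?_, hρ4⟩
    · have a1 := h3 (x.f z)
      have a2 := hx.disp z
      have a3 : (φ ∘ x.f) z - z = (φ (x.f z) - x.f z) + (x.f z - z) := by simp
      have a4 : κ ≤ ε * (1 / 2) ^ (n + 1) := min_le_right _ _
      simp only
      rw [a3]
      refine (norm_add_le _ _).trans ?_
      have a5 : ε * (1 - (1 / 2) ^ (n + 1)) = ε * (1 / 2) ^ (n + 1) + ε * (1 - (1 / 2) ^ n) := by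
        rw [pow_succ]; ring
      rw [a5]
      linarith
    · simp only
      rw [image_union]
      refine Lin.union ?_ ?_
      · rw [image_comp]; exact hx.lin.image h2
      · refine h5.mono ?_
        rintro _ ⟨z, hz, rfl⟩
        exact ⟨x.f z, hz, rfl⟩
    · rintro _ ⟨z, ⟨hz, hz'⟩, rfl⟩
      simp only [mem_union, mem_preimage, not_or] at hz'
      exact ⟨x.f z, ⟨hx.sub ⟨z, ⟨hz, hz'.1⟩, rfl⟩, hz'.2⟩, rfl⟩
  · refine ⟨?_, hρ2, hρ1⟩
    simp only
    have b1 : T' ⊆ cthickening κ x.T := by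
      rintro _ ⟨z, ⟨hz, -⟩, rfl⟩
      refine mem_cthickening_of_dist_le _ z κ _ hz ?_
      rw [dist_eq_norm]; exact h3 z
    calc cthickening ρ T' ⊆ cthickening ρ (cthickening κ x.T) := cthickening_subset_of_subset ρ b1
      _ ⊆ cthickening (ρ + κ) x.T := cthickening_cthickening_subset hρ4.le hκ0.le _
      _ ⊆ cthickening (x.r / 2) x.T := by
          refine cthickening_mono ?_ _
          have : κ ≤ x.r / 4 := min_le_left _ _
          linarith

/-- Step B -/
lemma stepB {u : ℂ} (hu : ‖u‖ = 1) {d : ℝ≥0} (hd0 : 0 < d) (hd : d ≤ 1) {D : Set ℂ} (hD : D.Finite)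
    (hD1 : ∀ v ∈ D, ‖v‖ = 1) {T : Set ℂ} (hT : IsCompact T) (hT0 : volume T = 0)
    (hthin : ∀ v ∈ D, Thin v d T) {ε : ℝ} (hε : 0 < ε) :
    ∃ T' : Set ℂ, IsCompact T' ∧ volume T' = 0 ∧ (∀ v ∈ insert u D, Thin v d T') ∧
      ∀ U : Set ℂ, IsOpen U → T' ⊆ U → ∃ f : ℂ → ℂ, ∃ V : Set ℂ, Ty u d f ∧ PA f ∧
        (∀ z, ‖f z - z‖ ≤ ε) ∧ IsOpen V ∧ Lin (f '' V) ∧ f '' (T \ V) ⊆ U := by
  have h0 : Good u d D T ε 0 ⟨T, id, ∅, 1⟩ :=
    ⟨hT, hT0, hthin, Ty.id u d, PA.id, fun z => by simp, isOpen_empty, by simpa using Lin.empty,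
      by simp, one_pos⟩
  choose! nxt hnxt using fun n x (hx : Good u d D T ε n x) => step hu hd0 hd hD hD1 hε n x hx
  let s : ℕ → St := fun n => Nat.rec ⟨T, id, ∅, 1⟩ (fun k x => nxt k x) n
  have hs : ∀ n, Good u d D T ε n (s n) := by
    intro n
    induction n with
    | zero => exact h0
    | succ k ih => exact (hnxt k (s k) ih).1
  have hrel : ∀ n, Rel u d D n (s n) (s (n + 1)) := fun n => (hnxt n (s n) (hs n)).2
  set C : ℕ → Set ℂ := fun n => cthickening (s n).r (s n).T with hC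
  have hCc : ∀ n, IsCompact (C n) := fun n => (hs n).cpt.cthickening
  have hCs : ∀ n, C (n + 1) ⊆ C n := fun n =>
    (hrel n).nest.trans (cthickening_mono (by have := (hs n).pos; linarith) _)
  have hCanti : Antitone C := antitone_nat_of_succ_le hCs
  have hTC : ∀ n, (s n).T ⊆ C n := fun n => self_subset_cthickening _
  refine ⟨⋂ n, C n, ?_, ?_, ?_, ?_⟩
  · exact (hCc 0).of_isClosed_subset (isClosed_iInter fun n => (hCc n).isClosed) (iInter_subset _ 0)
  · refine le_antisymm (le_of_forall_pos_le_add ?_) zero_le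
    intro e he
    rcases eq_or_ne e ⊤ with rfl | hetop
    · simp
    have her : 0 < e.toReal := ENNReal.toReal_pos he.ne' hetop
    obtain ⟨n, hn⟩ := exists_nat_one_div_lt her
    rw [zero_add, ← ENNReal.ofReal_toReal hetop]
    exact (measure_mono (iInter_subset C (n + 1))).trans (((hrel n).vol).trans (ENNReal.ofReal_le_ofReal hn.le))
  · intro v hv η hη
    obtain ⟨n, hn⟩ := exists_nat_one_div_lt hη
    have hpos := (hs (n + 1)).pos
    refine ⟨(s (n + 1)).r / 2, by positivity, fun g hg => ?_⟩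
    have hsub : thickening ((s (n + 1)).r / 2) (⋂ n, C n) ⊆ C (n + 1) := by
      calc thickening ((s (n + 1)).r / 2) (⋂ n, C n)
          ⊆ thickening ((s (n + 1)).r / 2) (cthickening ((s (n + 1)).r / 2) (s (n + 1)).T) :=
            thickening_subset_of_subset _ ((iInter_subset C (n + 2)).trans (hrel (n + 1)).nest)
        _ ⊆ thickening ((s (n + 1)).r / 2 + (s (n + 1)).r / 2) (s (n + 1)).T :=
            thickening_cthickening_subset _ (by positivity) _
        _ ⊆ C (n + 1) := by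
            rw [add_halves]; exact thickening_subset_cthickening _ _
    exact (measure_mono (hit_mono v g hsub)).trans (((hrel n).thin v hv g hg).trans (ENNReal.ofReal_le_ofReal hn.le))
  · intro U hU hTU
    obtain ⟨n, hn⟩ := exists_subset_nhds_of_isCompact' (V := C) hCanti.directed_ge hCc
      (fun n => (hCc n).isClosed) (U := U) (fun x hx => hU.mem_nhds (hTU hx))
    refine ⟨(s n).f, (s n).V, (hs n).ty, (hs n).pa, fun z => ((hs n).disp z).trans ?_, (hs n).op, (hs n).lin,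
      (hs n).sub.trans ((hTC n).trans hn)⟩
    have : (0 : ℝ) ≤ (1 / 2) ^ n := by positivity
    nlinarith

end

end NullContr
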